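import Pool.Agent.CSLB.Defs
import Pool.Agent.CS4.GPert

/-!
Module Cf of CSLB: the configuration in `E (k + 2)`.
-/

open Finset Filter Topology

noncomputable section

namespace Pool.CSLB

open Pool.CS4

/-- transfer of the values of a functional -/
lemma cf_pt {V V' : Type} [AddCommGroup V] [Module ℝ V] [AddCommGroup V'] [Module ℝ V']
    (T : V ≃ₗ[ℝ] V') {N : ℕ} (v : Fin N → V) (l : V →ₗ[ℝ] ℝ) (u : Fin N × Bool) :
    (l ∘ₗ (T.symm : V' →ₗ[ℝ] V)) (pt (fun i => T (v i)) u) = l (pt v u) := by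
  unfold pt
  split_ifs
  · simp
  · simp

/-- transfer of a strict edge -/
lemma cf_se {V V' : Type} [AddCommGroup V] [Module ℝ V] [AddCommGroup V'] [Module ℝ V']
    (T : V ≃ₗ[ℝ] V') {N : ℕ} {v : Fin N → V} {p q : Fin N × Bool} (h : SE v p q) :
    SE (fun i => T (v i)) p q := by
  obtain ⟨l, h1, h2, h3⟩ := h
  refine ⟨l ∘ₗ (T.symm : V' →ₗ[ℝ] V), ?_, ?_, ?_⟩
  · rw [cf_pt, h1]
  · rw [cf_pt, h2]
  · intro u hu hu'
    rw [cf_pt]
    exact h3 u hu hu'

lemma cf_neg {V : Type} [AddCommGroup V] {N : ℕ} (v : Fin N → V) (i : Fin N) :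
    pt v (i, false) = - pt v (i, true) := by
  simp [pt]

/-- exposed points from edges in both directions -/
lemma cf_sv {V : Type} [AddCommGroup V] [Module ℝ V] {N : ℕ} {v : Fin N → V} {p : Fin N × Bool}
    {j : Fin N} (h1 : SE v p (j, true)) (h2 : SE v p (j, false)) : SV v p := by
  obtain ⟨l, a1, a2, a3⟩ := h1
  obtain ⟨m, b1, b2, b3⟩ := h2
  have a4 : l (pt v (j, false)) = -1 := by rw [cf_neg, map_neg, a2]
  have b4 : m (pt v (j, true)) = -1 := by
    rw [cf_neg, map_neg] at b2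
    linarith
  refine ⟨(1 / 2 : ℝ) • (l + m), ?_, ?_⟩
  · rw [LinearMap.smul_apply, LinearMap.add_apply, a1, b1, smul_eq_mul]
    norm_num
  · intro u hu
    rw [LinearMap.smul_apply, LinearMap.add_apply, smul_eq_mul]
    by_cases h3 : u = (j, true)
    · rw [h3, a2, b4]
      norm_num
    by_cases h4 : u = (j, false)
    · rw [h4, a4, b2]
      norm_num
    have h5 := a3 u hu h3
    have h6 := b3 u hu h4
    linarith

theorem cf (h1 : St_Sgn) (h2 : St_Par) (h3 : St_FC) (h4 : St_FI) : St_Cf := by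
  intro k N hk hN
  obtain ⟨e, he⟩ := h1 k (by omega)
  have hr4 : 4 ≤ 2 ^ (k - 1) := by
    calc 4 = 2 ^ 2 := by norm_num
      _ ≤ 2 ^ (k - 1) := Nat.pow_le_pow_right (by norm_num) (by omega)
  generalize 2 ^ (k - 1) = r at e he hr4
  have hrpos : 0 < r := by omega
  have hr1 : (1 : ℝ) ≤ r := by exact_mod_cast hrpos
  have hk1 : (3 : ℝ) ≤ k := by exact_mod_cast hk
  let cl : Fin N → Fin r := fun i => ⟨i.val % r, Nat.mod_lt _ hrpos⟩
  have hcl : ∀ i j : Fin N, cl i = cl j ↔ i.val % r = j.val % r := fun i j => by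
    simp [cl, Fin.ext_iff]
  have heta : 0 < eta k r := by
    unfold eta
    positivity
  have hC : (1 : ℝ) ≤ 2 * k * K0 r := by
    unfold K0
    nlinarith
  obtain ⟨s, hs1, hs2, hs3⟩ := h2 r N cl (eta k r) (2 * k * K0 r) heta hC
  have hA : Adm (k := k) cl s := ⟨hs1, hs2, hs3⟩
  have hfr : Module.finrank ℝ (W k) = Module.finrank ℝ (E (k + 2)) := by
    simp [W, E]
  let T : W k ≃ₗ[ℝ] E (k + 2) := LinearEquiv.ofFinrankEq _ _ hfr
  let v : ℝ → Fin N → E (k + 2) := fun δ i => T (fam e cl s δ i)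
  let R : ℝ → Fin N × Bool → E (k + 2) := fun δ u => pt (v δ) u
  have hTc : Continuous (T : W k →ₗ[ℝ] E (k + 2)) :=
    LinearMap.continuous_of_finiteDimensional _
  have hvc : ∀ i, Continuous fun δ => v δ i := by
    intro i
    have h5 : Continuous fun δ : ℝ => fam e cl s δ i := by
      unfold fam X
      refine Continuous.prodMk ?_ continuous_const
      refine continuous_pi fun a => ?_
      fun_prop
    exact hTc.comp h5
  have hR : ∀ u, Continuous fun δ => R δ u := by
    intro u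
    show Continuous fun δ => pt (v δ) u
    unfold pt
    split_ifs
    · exact hvc u.1
    · exact (hvc u.1).neg
  -- edges for δ = 0
  have hE0 : ∀ (i j : Fin N) (b c : Bool), cl i ≠ cl j → SE (v 0) (i, b) (j, c) :=
    fun i j b c hij => cf_se T (h3 k r N e cl s (by omega) he hA i j b c hij)
  have hV0 : ∀ p, SV (v 0) p := by
    rintro ⟨i, b⟩
    obtain ⟨j, hj⟩ : ∃ j : Fin N, cl i ≠ cl j := by
      by_cases h6 : i.val % r = 0
      · refine ⟨⟨1, by omega⟩, ?_⟩
        rw [Ne, hcl]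
        show ¬ i.val % r = 1 % r
        rw [h6, Nat.mod_eq_of_lt (show 1 < r by omega)]
        omega
      · refine ⟨⟨0, by omega⟩, ?_⟩
        rw [Ne, hcl]
        show ¬ i.val % r = 0 % r
        rw [Nat.zero_mod]
        exact h6
    exact cf_sv (hE0 i j b true hj) (hE0 i j b false hj)
  have hne0 : ∀ p q, p ≠ q → R 0 p ≠ R 0 q := by
    intro p q hpq heq
    obtain ⟨l, a1, a2⟩ := hV0 p
    have a3 := a2 q hpq.symm
    have a4 : pt (v 0) p = pt (v 0) q := heq
    rw [← a4, a1] at a3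
    exact lt_irrefl _ a3
  -- persistence
  have hP1 : ∀ᶠ δ in 𝓝 (0 : ℝ), ∀ p, SV (v δ) p := by
    rw [eventually_all]
    intro p
    obtain ⟨l, a1, a2⟩ := hV0 p
    exact pers1GPert R 0 p hR l a1 a2
  have hP2 : ∀ᶠ δ in 𝓝 (0 : ℝ), ∀ (i j : Fin N) (b c : Bool), cl i ≠ cl j →
      SE (v δ) (i, b) (j, c) := by
    rw [eventually_all]
    intro i
    rw [eventually_all]
    intro j
    rw [eventually_all]
    intro b
    rw [eventually_all]
    intro c
    by_cases hij : cl i = cl j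
    · exact Eventually.of_forall fun _ h => absurd hij h
    obtain ⟨l, a1, a2, a3⟩ := hE0 i j b c hij
    have hpq : ((i, b) : Fin N × Bool) ≠ (j, c) := by
      intro h
      exact hij (by rw [(Prod.mk.inj h).1])
    have a4 := persGPert R 0 (i, b) (j, c) hR (hne0 _ _ hpq) l a1 a2 a3
    filter_upwards [a4] with δ a5 _
    exact a5
  have hP3 : ∀ᶠ δ in 𝓝[>] (0 : ℝ), ∀ (i j : Fin N) (b : Bool), i ≠ j → cl i = cl j →
      SE (v δ) (i, b) (j, b) := by
    rw [eventually_all]
    intro i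
    rw [eventually_all]
    intro j
    rw [eventually_all]
    intro b
    by_cases hij : i = j
    · exact Eventually.of_forall fun _ h => absurd hij h
    by_cases hc : cl i = cl j
    · filter_upwards [h4 k r N e cl s hk he hA i j b hij hc] with δ a5 _ _
      exact cf_se T a5
    · exact Eventually.of_forall fun _ _ h => absurd h hc
  obtain ⟨δ, ⟨b1, b2⟩, b3⟩ := (((hP1.and hP2).filter_mono nhdsWithin_le_nhds).and hP3).exists
  refine ⟨v δ, b1, ?_⟩
  rintro ⟨i, b⟩ ⟨j, c⟩ ⟨g1, g2⟩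
  have g1' : i ≠ j := g1
  by_cases hc : cl i = cl j
  · rcases g2 with g2 | g2
    · exact absurd ((hcl i j).1 hc) g2
    · have g3 : b = c := g2
      subst g3
      exact b3 i j b g1' hc
  · exact b2 i j b c hc

end Pool.CSLB
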