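import Pool.Agent.CSLB.Defs

/-!
CSLB (Crs): the functional for two points in different clusters (helper46).
-/

open Finset

noncomputable section

namespace Pool.CSLB

private theorem Crs_num (R c c' σ s t : ℝ) (hR : 1 ≤ R) (hc : |c| ≤ R) (hcc : 1 ≤ |c - c'|)
    (hσ : σ = 1 ∨ σ = -1) (hs : 0 < s) (hst : s ≤ t) (ht : t ≤ 1 / 100) :
    ∃ m₁ m₂ : ℝ, m₁ + c * m₂ = 2 * s / (1 + s ^ 2) * (1 - m₂) ∧
      m₁ + c' * m₂ = 2 * t / (1 + t ^ 2) * (σ - m₂) ∧ |m₂| ≤ 8 * t ∧ |m₁| ≤ (8 * R + 4) * t := by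
  have ht0 : 0 < t := hs.trans_le hst
  obtain ⟨θ, hθ⟩ : ∃ θ, θ = 2 * s / (1 + s ^ 2) := ⟨_, rfl⟩
  obtain ⟨θ', hθ'⟩ : ∃ θ, θ = 2 * t / (1 + t ^ 2) := ⟨_, rfl⟩
  have h1 : 0 ≤ θ := by
    rw [hθ]
    positivity
  have h2 : θ ≤ 2 * s := by
    rw [hθ, div_le_iff₀ (by positivity)]
    nlinarith [sq_nonneg s, mul_pos hs (mul_pos hs hs)]
  have h3 : 0 ≤ θ' := by
    rw [hθ']
    positivity
  have h4 : θ' ≤ 2 * t := by
    rw [hθ', div_le_iff₀ (by positivity)]
    nlinarith [sq_nonneg t, mul_pos ht0 (mul_pos ht0 ht0)]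
  have hd : 1 / 2 ≤ |c - c' + θ - θ'| := by
    have h5 : |c - c'| ≤ |c - c' + θ - θ'| + |θ' - θ| := by
      have h6 := abs_add_le (c - c' + θ - θ') (θ' - θ)
      have h7 : c - c' + θ - θ' + (θ' - θ) = c - c' := by ring
      rwa [h7] at h6
    have h6 : |θ' - θ| ≤ 2 * t := by
      rw [abs_le]
      constructor <;> linarith
    linarith
  have hd0 : c - c' + θ - θ' ≠ 0 := by
    intro h
    rw [h, abs_zero] at hd
    linarith
  obtain ⟨m, hm⟩ : ∃ m, m = (θ - σ * θ') / (c - c' + θ - θ') := ⟨_, rfl⟩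
  have hm1 : m * (c - c' + θ - θ') = θ - σ * θ' := by
    rw [hm, div_mul_cancel₀ _ hd0]
  have hm2 : |m| ≤ 8 * t := by
    rw [hm, abs_div, div_le_iff₀ (by linarith)]
    have h5 : |θ - σ * θ'| ≤ 4 * t := by
      rw [abs_le]
      rcases hσ with h | h <;> rw [h] <;> constructor <;> linarith
    nlinarith
  refine ⟨θ * (1 - m) - c * m, m, ?_, ?_, hm2, ?_⟩
  · rw [← hθ]
    ring
  · rw [← hθ']
    linear_combination -hm1
  · have h5 : |θ * (1 - m)| ≤ 2 * t * (1 + 8 * t) := by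
      rw [abs_mul, abs_of_nonneg h1]
      have h6 : |1 - m| ≤ 1 + 8 * t := by
        rw [abs_le] at hm2 ⊢
        constructor <;> linarith
      exact mul_le_mul (by linarith) h6 (abs_nonneg _) (by linarith)
    have h6 : |c * m| ≤ R * (8 * t) := by
      rw [abs_mul]
      exact mul_le_mul hc hm2 (abs_nonneg _) (by linarith)
    have h7 := abs_sub (θ * (1 - m)) (c * m)
    nlinarith

private theorem Crs_sq (x : ℝ) (h0 : 0 < x) (h1 : x ≤ 1 / 100) : x ^ 2 ≤ 1 / 10000 := by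
  nlinarith

private theorem Crs_M (R t x : ℝ) (ht : 0 < t) (hx : 0 < x) (hx1 : x ≤ 1 / 100) :
    (8 * R + 4) * t * x + 8 * t * (R * x + x ^ 2) ≤ (16 * R + 12) * t * x := by
  have h3 : 0 < t * x := mul_pos ht hx
  nlinarith

private theorem Crs_small (k R t x : ℝ) (hk : 2 ≤ k) (hR : 1 ≤ R) (ht : 0 < t) (hx : 0 < x)
    (ht1 : t ≤ 1 / 100) (hx1 : x ≤ 1 / 100) (hte : t * (100 * k * R) ≤ 1) :
    (t ^ 2 + (16 * R + 12) * t * x) * k < 2 := by
  have hk0 : 0 < k := by linarith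
  have h8 : t * (k * R) ≤ 1 / 100 := by linarith
  have h9 : t * k ≤ 1 / 100 := by
    have h1 : t * k * 1 ≤ t * k * R := mul_le_mul_of_nonneg_left hR (mul_pos ht hk0).le
    linarith
  have h10 : t ^ 2 * k ≤ 1 / 100 * (1 / 100) := by
    have : t ^ 2 * k = (t * k) * t := by ring
    rw [this]
    exact mul_le_mul h9 ht1 ht.le (by norm_num)
  have h11 : (16 * R + 12) * t * x * k ≤ 28 * (1 / 100 * (1 / 100)) := by
    have h12 : (16 * R + 12) * t * x * k ≤ 28 * ((t * (k * R)) * x) := by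
      have h13 : 0 < t * x * k := by positivity
      nlinarith
    refine h12.trans (mul_le_mul_of_nonneg_left ?_ (by norm_num))
    exact mul_le_mul h8 hx1 hx.le (by norm_num)
  linarith

private theorem Crs_q (m t : ℝ) (h1 : -(1 / 10) ≤ m) (h2 : m ≤ 1 / 10) (ht : t ^ 2 ≤ 1 / 10000) :
    1 / 2 ≤ (1 - m) / (1 + t ^ 2) ∧ (1 - m) / (1 + t ^ 2) ≤ 2 := by
  have ht2 : 0 < 1 + t ^ 2 := by positivity
  constructor
  · rw [le_div_iff₀ ht2]
    linarith
  · rw [div_le_iff₀ ht2]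
    linarith [sq_nonneg t]

theorem crs (h : St_Lam) : St_Crs := by
  intro k R e e' c c' σ s t hk hR he he' hee hee' hc hc' hcc hσ hs hst ht
  have hk2 : 2 ≤ k := by
    rcases Nat.lt_or_ge 1 k with h1 | h1
    · exact h1
    · exfalso
      obtain ⟨a, ha⟩ := hee
      obtain ⟨b, hb⟩ := hee'
      have hab : a = b := by
        apply Fin.ext
        have := a.isLt
        have := b.isLt
        omega
      rw [hab] at ha
      have h2 : e' b = 0 := by linarith
      rcases he' b with h3 | h3 <;> rw [h2] at h3 <;> norm_num at h3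
  have hkR : (2 : ℝ) ≤ k := by exact_mod_cast hk2
  have hk0 : (0 : ℝ) < k := by linarith
  have ht0 : 0 < t := hs.trans_le hst
  have hkR1 : (1 : ℝ) ≤ k * R := by nlinarith
  have het : ∀ x : ℝ, x ≤ eta k R → x * (100 * k * R) ≤ 1 := fun x hx => by
    unfold eta at hx
    rwa [le_div_iff₀ (by positivity)] at hx
  have het2 : ∀ x : ℝ, 0 < x → x ≤ eta k R → x ≤ 1 / 100 := fun x hx0 hx => by
    have h1 := het x hx
    nlinarith
  have ht1 : t ≤ 1 / 100 := het2 t ht0 ht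
  have hs1 : s ≤ 1 / 100 := hst.trans ht1
  obtain ⟨m₁, m₂, hm, hm', hb2, hb1⟩ := Crs_num R c c' σ s t hR hc hcc hσ hs hst ht1
  have hb2' := abs_le.1 hb2
  have hσ2 : σ * σ = 1 := by rcases hσ with h1 | h1 <;> rw [h1] <;> norm_num
  have hσm : |σ * m₂| ≤ 8 * t := by
    rcases hσ with h1 | h1 <;> rw [h1]
    · rwa [one_mul]
    · rwa [neg_one_mul, abs_neg]
  have hσm' := abs_le.1 hσm
  have hs2 : 0 < 1 + s ^ 2 := by positivity
  have ht2 : 0 < 1 + t ^ 2 := by positivity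
  have hst2 : s ^ 2 ≤ t ^ 2 := pow_le_pow_left₀ hs.le hst 2
  -- `q` and `q'`
  obtain ⟨q, hq⟩ : ∃ q, q = (1 - m₂) / (1 + s ^ 2) := ⟨_, rfl⟩
  obtain ⟨q', hq'⟩ : ∃ q, q = (1 - σ * m₂) / (1 + t ^ 2) := ⟨_, rfl⟩
  have hq1 : q * (1 + s ^ 2) = 1 - m₂ := by rw [hq, div_mul_cancel₀ _ hs2.ne']
  have hq1' : q' * (1 + t ^ 2) = 1 - σ * m₂ := by rw [hq', div_mul_cancel₀ _ ht2.ne']
  have htt : t ^ 2 ≤ 1 / 10000 := Crs_sq t ht0 ht1
  have hss : s ^ 2 ≤ 1 / 10000 := hst2.trans htt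
  have hqa := Crs_q m₂ s (by linarith) (by linarith) hss
  have hqb := Crs_q (σ * m₂) t (by linarith) (by linarith) htt
  rw [← hq] at hqa
  rw [← hq'] at hqb
  have hq0 : 0 < q := by linarith [hqa.1]
  have hq0' : 1 / 2 ≤ q' := hqb.1
  have hq2 : q ≤ 2 := hqa.2
  have hq2' : q' ≤ 2 := hqb.2
  have hmq : m₁ + c * m₂ = 2 * s * q := by
    rw [hm, hq]
    ring
  have hmq' : m₁ + c' * m₂ = 2 * t * (σ * q') := by
    rw [hm', hq']
    have h1 : σ - m₂ = σ * (1 - σ * m₂) := by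
      linear_combination m₂ * hσ2
    rw [h1]
    ring
  -- `A = 1 - q s^2`, `B = 1 - q' t^2`
  have hA0 : 0 ≤ q * s ^ 2 := by positivity
  have hA2 : q * s ^ 2 ≤ 2 * t ^ 2 := mul_le_mul hq2 hst2 (by positivity) (by norm_num)
  have hB0 : t ^ 2 / 2 ≤ q' * t ^ 2 := by
    have h1 := mul_le_mul_of_nonneg_right hq0' (sq_nonneg t)
    linarith only [h1]
  have hB2 : q' * t ^ 2 ≤ 2 * t ^ 2 := mul_le_mul_of_nonneg_right hq2' (sq_nonneg t)
  obtain ⟨lam, hl1, hl2, hl3⟩ := h k e (fun a => σ * e' a) he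
    (fun a => by
      rcases hσ with h1 | h1 <;> rcases he' a with h2 | h2 <;> simp only [h1, h2] <;> norm_num)
    (by
      rcases hσ with h1 | h1
      · obtain ⟨a, ha⟩ := hee
        exact ⟨a, by rw [h1, one_mul, ha]⟩
      · obtain ⟨a, ha⟩ := hee'
        exact ⟨a, by rw [h1, neg_one_mul, ha]⟩)
    (by
      rcases hσ with h1 | h1
      · obtain ⟨a, ha⟩ := hee'
        exact ⟨a, by rw [h1, one_mul, ha]⟩
      · obtain ⟨a, ha⟩ := hee
        exact ⟨a, by rw [h1, neg_one_mul, neg_neg, ha]⟩)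
    (1 - (q * s ^ 2 + q' * t ^ 2) / 2) ((q' * t ^ 2 - q * s ^ 2) / 2)
    (by linarith only [hA2, hB2, htt])
  have hval : ∀ (z f g : Fin k → ℝ) (c'' x : ℝ), Lf lam m₁ m₂ (X z f g c'' 0 x) =
      (1 - x ^ 2) * ∑ a, lam a * z a + (m₁ * x + m₂ * (c'' * x + x ^ 2)) := by
    intro z f g c'' x
    have h1 : Lf lam m₁ m₂ (X z f g c'' 0 x) =
        ∑ a, lam a * ((1 - x ^ 2) * z a + 0 * (x ^ 3 * f a + x ^ 4 * g a)) + m₁ * x +
          m₂ * (c'' * x + x ^ 2) := rfl
    rw [h1, mul_sum, add_assoc]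
    congr 1
    exact sum_congr rfl fun a _ => by ring
  refine ⟨Lf lam m₁ m₂, ⟨q, hq0, hq2, fun f g x => ?_⟩, ⟨q', by linarith, hq2', fun f g x => ?_⟩, ?_⟩
  · rw [hval, hl1]
    linear_combination x * hmq + x ^ 2 * hq1
  · rw [hval]
    have h1 : ∑ a, lam a * e' a = σ * (1 - q' * t ^ 2) := by
      have h2 : ∑ a, lam a * (σ * e' a) = σ * ∑ a, lam a * e' a := by
        rw [mul_sum]
        exact sum_congr rfl fun a _ => by ring
      rw [h2] at hl2
      calc ∑ a, lam a * e' a = (σ * σ) * ∑ a, lam a * e' a := by rw [hσ2, one_mul]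
        _ = σ * (σ * ∑ a, lam a * e' a) := by ring
        _ = σ * (1 - q' * t ^ 2) := by
          rw [hl2]
          ring
    rw [h1]
    linear_combination x * hmq' + σ * x ^ 2 * hq1' - x ^ 2 * m₂ * hσ2
  · intro z f g c'' x hz hze hzne hze' hzne' hc'' hx hxe hxt
    have hx1 : x ≤ 1 / 100 := het2 x hx hxe
    have hx22 := Crs_sq x hx hx1
    have hx2 : 0 ≤ 1 - x ^ 2 := by linarith only [hx22]
    have hM : |m₁ * x + m₂ * (c'' * x + x ^ 2)| ≤ K0 R * t * x := by
      have h1 : |m₁ * x| ≤ (8 * R + 4) * t * x := by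
        rw [abs_mul, abs_of_pos hx]
        exact mul_le_mul_of_nonneg_right hb1 hx.le
      have h2 : |m₂ * (c'' * x + x ^ 2)| ≤ 8 * t * (R * x + x ^ 2) := by
        rw [abs_mul]
        refine mul_le_mul hb2 ?_ (abs_nonneg _) (by positivity)
        refine (abs_add_le _ _).trans ?_
        rw [abs_mul, abs_of_pos hx, abs_of_nonneg (sq_nonneg x)]
        exact add_le_add (mul_le_mul_of_nonneg_right hc'' hx.le) le_rfl
      exact (abs_add_le _ _).trans ((add_le_add h1 h2).trans (Crs_M R t x ht0 hx hx1))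
    have hcase : |∑ a, lam a * z a| ≤ (1 - (q * s ^ 2 + q' * t ^ 2) / 2) * (1 - 2 / k) +
          |(q' * t ^ 2 - q * s ^ 2) / 2| ∨
        ∃ c₀ : ℝ, |c₀| ≤ 1 - 2 / k ∧
          (∑ a, lam a * z a = (1 - (q * s ^ 2 + q' * t ^ 2) / 2) +
            ((q' * t ^ 2 - q * s ^ 2) / 2) * c₀ ∨
          ∑ a, lam a * z a = -((1 - (q * s ^ 2 + q' * t ^ 2) / 2) +
            ((q' * t ^ 2 - q * s ^ 2) / 2) * c₀)) := by
      refine hl3 z hz hze hzne ?_ ?_
      · intro h1
        rcases hσ with h2 | h2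
        · refine hze' ?_
          rw [h1]
          funext a
          rw [h2, one_mul]
        · refine hzne' ?_
          rw [h1]
          funext a
          rw [h2, neg_one_mul, Pi.neg_apply]
      · intro h1
        rcases hσ with h2 | h2
        · refine hzne' ?_
          rw [h1]
          funext a
          rw [Pi.neg_apply, Pi.neg_apply, h2, one_mul]
        · refine hze' ?_
          rw [h1]
          funext a
          rw [Pi.neg_apply, h2, neg_one_mul, neg_neg]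
    have hk1 : 0 ≤ 1 - 2 / (k : ℝ) := by
      rw [sub_nonneg, div_le_one hk0]
      exact hkR
    have hkk : (k : ℝ) * (2 / k) = 2 := by
      field_simp
    rw [hval]
    refine (abs_add_le _ _).trans_lt ?_
    rw [abs_mul, abs_of_nonneg hx2]
    rcases hcase with h1 | ⟨c₀, hc₀, h1⟩
    · have h2 : |(q' * t ^ 2 - q * s ^ 2) / 2| ≤ t ^ 2 := by
        rw [abs_le]
        constructor <;> linarith only [hA0, hA2, hB0, hB2, sq_nonneg t]
      have h3 : |∑ a, lam a * z a| ≤ 1 - 2 / k + t ^ 2 := by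
        refine h1.trans (add_le_add ?_ h2)
        have h4 : 1 - (q * s ^ 2 + q' * t ^ 2) / 2 ≤ 1 := by linarith only [hA0, hB0, sq_nonneg t]
        calc (1 - (q * s ^ 2 + q' * t ^ 2) / 2) * (1 - 2 / (k : ℝ)) ≤ 1 * (1 - 2 / (k : ℝ)) :=
              mul_le_mul_of_nonneg_right h4 hk1
          _ = _ := one_mul _
      have h4 : (1 - x ^ 2) * |∑ a, lam a * z a| ≤ 1 - 2 / k + t ^ 2 := by
        calc (1 - x ^ 2) * |∑ a, lam a * z a| ≤ 1 * |∑ a, lam a * z a| :=
              mul_le_mul_of_nonneg_right (by linarith only [sq_nonneg x]) (abs_nonneg _)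
          _ ≤ _ := by rwa [one_mul]
      have h5 : t ^ 2 + K0 R * t * x < 2 / k := by
        rw [lt_div_iff₀ hk0]
        exact Crs_small k R t x hkR hR ht0 hx ht1 hx1 (het t ht)
      linarith only [h4, h5, hM]
    · obtain ⟨U, hU⟩ : ∃ U, U = (1 + c₀) / 2 * (q * s ^ 2) + (1 - c₀) / 2 * (q' * t ^ 2) := ⟨_, rfl⟩
      have hc1 := abs_le.1 hc₀
      have hk3 : 2 / (k : ℝ) ≤ 1 - c₀ := by linarith
      have hk4 : 0 ≤ 1 + c₀ := by
        have : 0 ≤ 2 / (k : ℝ) := by positivity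
        linarith
      have hk5 : 0 ≤ 1 - c₀ := by
        have : 0 ≤ 2 / (k : ℝ) := by positivity
        linarith
      have hU1 : t ^ 2 / 2 / k ≤ U := by
        rw [hU]
        have h3 : t ^ 2 / 2 / k = 2 / k / 2 * (t ^ 2 / 2) := by
          field_simp
        have h4 : 2 / (k : ℝ) / 2 * (t ^ 2 / 2) ≤ (1 - c₀) / 2 * (q' * t ^ 2) :=
          mul_le_mul (by linarith) hB0 (by positivity) (by linarith)
        have h5 : 0 ≤ (1 + c₀) / 2 * (q * s ^ 2) := mul_nonneg (by linarith) hA0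
        rw [h3]
        linarith only [h4, h5]
      have hU2 : U ≤ 2 * t ^ 2 := by
        rw [hU]
        have h3 : (1 + c₀) / 2 * (q * s ^ 2) ≤ (1 + c₀) / 2 * (2 * t ^ 2) :=
          mul_le_mul_of_nonneg_left hA2 (by linarith)
        have h4 : (1 - c₀) / 2 * (q' * t ^ 2) ≤ (1 - c₀) / 2 * (2 * t ^ 2) :=
          mul_le_mul_of_nonneg_left hB2 (by linarith)
        linarith only [h3, h4]
      have h2 : |∑ a, lam a * z a| = 1 - U := by
        have h3 : (1 - (q * s ^ 2 + q' * t ^ 2) / 2) + ((q' * t ^ 2 - q * s ^ 2) / 2) * c₀ =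
            1 - U := by
          rw [hU]
          ring
        rw [h3] at h1
        have h4 : 0 ≤ 1 - U := by linarith only [hU2, htt]
        rcases h1 with h1 | h1
        · rw [h1, abs_of_nonneg h4]
        · rw [h1, abs_neg, abs_of_nonneg h4]
      rw [h2]
      have h3 : (1 - x ^ 2) * (1 - U) ≤ 1 - U - x ^ 2 / 2 := by
        have h5 : x ^ 2 * U ≤ x ^ 2 * (1 / 2) :=
          mul_le_mul_of_nonneg_left (by linarith only [hU2, htt]) (sq_nonneg x)
        linarith only [h5]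
      have h4 : K0 R * t * x < t ^ 2 / 2 / k + x ^ 2 / 2 := by
        have hK : 0 < K0 R := by
          unfold K0
          linarith
        rcases hxt with h5 | h5
        · have h6 : K0 R * t * x < t ^ 2 / 2 / k := by
            rw [lt_div_iff₀ hk0]
            have h7 := mul_lt_mul_of_pos_left h5 ht0
            linarith only [h7]
          have h7 : 0 ≤ x ^ 2 / 2 := by positivity
          linarith only [h6, h7]
        · have h6 : K0 R * t * x < x ^ 2 / 2 := by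
            have h7 := mul_lt_mul_of_pos_right h5 hx
            linarith only [h7]
          have h7 : 0 ≤ t ^ 2 / 2 / k := by positivity
          linarith only [h6, h7]
      linarith only [h3, h4, hM, hU1]

end Pool.CSLB
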