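import Pool.Agent.CSLB.Defs

/-!
CSLB, module Ct: the number of good pairs.
-/

open Finset

namespace Pool.CSLB

/-- the number of elements of `Fin N` with the residue of `a` modulo `r` -/
theorem card_res_Ct (N r a : ℕ) (hr : 1 ≤ r) :
    ((Finset.univ : Finset (Fin N)).filter fun j => j.val % r = a % r).card ≤ N / r + 1 := by
  have h1 : ((Finset.univ : Finset (Fin N)).filter fun j => j.val % r = a % r).card ≤
      ((Finset.range N).filter fun j => j ≡ a [MOD r]).card := by
    apply Finset.card_le_card_of_injOn (fun j => j.val)
    · intro j hj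
      simp only [Finset.coe_filter, Finset.mem_univ, true_and, Set.mem_ofPred_eq] at hj
      simp only [Finset.coe_filter, Finset.mem_range, Set.mem_ofPred_eq]
      exact ⟨j.isLt, hj⟩
    · intro x _ y _ hxy
      exact Fin.ext hxy
  have h2 := Nat.count_modEq_card (b := N) (r := r) (by omega) a
  rw [Nat.count_eq_card_filter_range] at h2
  have h3 : (if a % r < N % r then 1 else 0) ≤ 1 := by split_ifs <;> omega
  omega

open Classical in
/-- the number of good pairs with a given first member -/
theorem card_good_Ct (N r : ℕ) (hr : 1 ≤ r) (p : Fin N × Bool) :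
    2 * N ≤ ((Finset.univ : Finset (Fin N × Bool)).filter fun q => Good r p q).card +
      (N / r + 2) := by
  have h0 : (Finset.univ : Finset (Fin N × Bool)).card = 2 * N := by
    rw [Finset.card_univ, Fintype.card_prod, Fintype.card_fin, Fintype.card_bool, mul_comm]
  have h1 := Finset.card_filter_add_card_filter_not (s := (Finset.univ : Finset (Fin N × Bool)))
    (fun q => Good r p q)
  have h2 : ((Finset.univ : Finset (Fin N × Bool)).filter fun q => ¬ Good r p q) ⊆
      insert p ((((Finset.univ : Finset (Fin N)).filter fun j => j.val % r = p.1.val % r)).image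
        fun j => (j, !p.2)) := by
    intro q hq
    rw [Finset.mem_filter] at hq
    have h3 := hq.2
    unfold Good at h3
    rw [Finset.mem_insert, Finset.mem_image]
    by_cases h4 : p.2 = q.2
    · left
      have h5 : p.1 = q.1 := by
        by_contra h6
        exact h3 ⟨h6, Or.inr h4⟩
      exact Prod.ext h5.symm h4.symm
    · right
      refine ⟨q.1, ?_, ?_⟩
      · rw [Finset.mem_filter]
        refine ⟨Finset.mem_univ _, ?_⟩
        by_contra h6
        apply h3
        refine ⟨?_, Or.inl fun h7 => h6 h7.symm⟩
        intro h7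
        exact h6 (by rw [h7])
      · refine Prod.ext rfl ?_
        change (!p.2) = q.2
        revert h4
        cases p.2 <;> cases q.2 <;> simp
  have h3 := Finset.card_le_card h2
  have h4 := Finset.card_insert_le p
    ((((Finset.univ : Finset (Fin N)).filter fun j => j.val % r = p.1.val % r)).image
        fun j => (j, !p.2))
  have h5 := Finset.card_image_le
    (s := ((Finset.univ : Finset (Fin N)).filter fun j => j.val % r = p.1.val % r))
    (f := fun j => (j, !p.2))
  have h6 := card_res_Ct N r p.1.val hr
  omega

/-- (Ct) the number of pairs -/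
theorem ct : St_Ct := by
  classical
  intro N r hr
  have h1 : ((Finset.univ : Finset ((Fin N × Bool) × (Fin N × Bool))).filter
      fun z => Good r z.1 z.2).card =
      ∑ p : Fin N × Bool, ((Finset.univ : Finset (Fin N × Bool)).filter
        fun q => Good r p q).card := by
    rw [Finset.card_filter, Fintype.sum_prod_type]
    refine Finset.sum_congr rfl fun p _ => ?_
    rw [Finset.card_filter]
  have hr0 : (0 : ℝ) < r := by exact_mod_cast hr
  have h2 : ∀ p : Fin N × Bool, 2 * (N : ℝ) - N / r - 2 ≤
      (((Finset.univ : Finset (Fin N × Bool)).filter fun q => Good r p q).card : ℝ) := by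
    intro p
    have h3 := card_good_Ct N r hr p
    have h4 : (2 * N : ℝ) ≤ (((Finset.univ : Finset (Fin N × Bool)).filter
        fun q => Good r p q).card : ℝ) + (((N / r : ℕ) : ℝ) + 2) := by
      exact_mod_cast h3
    have h5 : (((N / r : ℕ) : ℝ)) ≤ (N : ℝ) / r := Nat.cast_div_le
    linarith
  have h3 : ∑ _p : Fin N × Bool, (2 * (N : ℝ) - N / r - 2) ≤
      ∑ p : Fin N × Bool, (((Finset.univ : Finset (Fin N × Bool)).filter
        fun q => Good r p q).card : ℝ) := Finset.sum_le_sum fun p _ => h2 p
  rw [Finset.sum_const, Finset.card_univ, Fintype.card_prod, Fintype.card_fin, Fintype.card_bool,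
    nsmul_eq_mul] at h3
  have h4 : (((Finset.univ : Finset ((Fin N × Bool) × (Fin N × Bool))).filter
      fun z => Good r z.1 z.2).card : ℝ) =
      ∑ p : Fin N × Bool, (((Finset.univ : Finset (Fin N × Bool)).filter
        fun q => Good r p q).card : ℝ) := by
    rw [h1]
    push_cast
    rfl
  have h5 : (4 - 2 / (r : ℝ)) * (N : ℝ) ^ 2 - 4 * N =
      ((N * 2 : ℕ) : ℝ) * (2 * (N : ℝ) - N / r - 2) := by
    push_cast
    field_simp
    ring
  rw [h5]
  convert h3 using 1

end Pool.CSLB
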