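import Pool.Agent.CS4.Gap

/-!
Centrally symmetric simplicial `d`-polytopes with many edges (MP_54ed1a_co), lower bound for all
`d ≥ 5`: definitions and statements of the modules. Note [CSLB] on MP_54ed1a_co.

Plan. `d = k + 2`, `r = 2^(k-1)` clusters, one for every antipodal class of `{1,-1}^k`, with points
`X e f g c δ s` in `ℝ^k × ℝ^2`, where `c` is the number of the cluster and `s` is a small
parameter; the parameters of different clusters have different orders of magnitude. All pairs of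
points in different clusters are adjacent with both signs (explicit functional for `δ = 0`, then
`δ` small), points of the same cluster are adjacent with the same sign (explicit functional for
`δ > 0`). Verified with exact rational arithmetic for `k = 3, 4`.
-/

open Finset Filter Topology

noncomputable section

namespace Pool.CSLB

open Pool.CS4

/-- the model space `ℝ^k × ℝ^2` -/
abbrev W (k : ℕ) : Type := (Fin k → ℝ) × (ℝ × ℝ)

/-- sign vectors -/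
def IsSign {k : ℕ} (e : Fin k → ℝ) : Prop := ∀ a, e a = 1 ∨ e a = -1

/-- the functional with the coefficients `lam`, `m₁`, `m₂` -/
def Lf {k : ℕ} (lam : Fin k → ℝ) (m₁ m₂ : ℝ) : W k →ₗ[ℝ] ℝ where
  toFun z := ∑ a, lam a * z.1 a + m₁ * z.2.1 + m₂ * z.2.2
  map_add' x y := by
    simp only [Prod.fst_add, Prod.snd_add, Pi.add_apply, mul_add, Finset.sum_add_distrib]
    ring
  map_smul' c x := by
    simp only [Prod.smul_fst, Prod.smul_snd, Pi.smul_apply, smul_eq_mul, RingHom.id_apply,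
      mul_add, Finset.mul_sum]
    congr 1
    · congr 1
      · exact Finset.sum_congr rfl fun a _ => by ring
      · ring
    · ring

/-- the curve of the cluster with number `c` and sign vector `e` -/
def X {k : ℕ} (e f g : Fin k → ℝ) (c δ s : ℝ) : W k :=
  (fun a => (1 - s ^ 2) * e a + δ * (s ^ 3 * f a + s ^ 4 * g a), (s, c * s + s ^ 2))

/-- a vector orthogonal to `e` (for `3 ≤ k`) -/
def fV {k : ℕ} (e : Fin k → ℝ) : Fin k → ℝ := fun a =>
  if a.val = 0 then e a else if a.val = 1 then e a else if a.val = 2 then -2 * e a else 0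

/-- a second vector orthogonal to `e` -/
def gV {k : ℕ} (e : Fin k → ℝ) : Fin k → ℝ := fun a =>
  if a.val = 0 then 2 * (k : ℝ) * e a else if a.val = 1 then -(2 * (k : ℝ)) * e a else 0

/-- bound for the parameters -/
def eta (k : ℕ) (R : ℝ) : ℝ := 1 / (100 * k * R)

/-- constant -/
def K0 (R : ℝ) : ℝ := 16 * R + 12

/-- the signed points -/
def pt {V : Type} [Neg V] {N : ℕ} (v : Fin N → V) (u : Fin N × Bool) : V :=
  if u.2 then v u.1 else -v u.1

/-- strict edge -/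
def SE {V : Type} [AddCommGroup V] [Module ℝ V] {N : ℕ} (v : Fin N → V)
    (p q : Fin N × Bool) : Prop :=
  ∃ l : V →ₗ[ℝ] ℝ, l (pt v p) = 1 ∧ l (pt v q) = 1 ∧ ∀ u, u ≠ p → u ≠ q → l (pt v u) < 1

/-- strictly exposed point -/
def SV {V : Type} [AddCommGroup V] [Module ℝ V] {N : ℕ} (v : Fin N → V)
    (p : Fin N × Bool) : Prop :=
  ∃ l : V →ₗ[ℝ] ℝ, l (pt v p) = 1 ∧ ∀ u, u ≠ p → l (pt v u) < 1

/-- the pairs that shall be edges; `i % r` is the cluster of the point with number `i` -/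
def Good (r : ℕ) {N : ℕ} (p q : Fin N × Bool) : Prop :=
  p.1 ≠ q.1 ∧ (p.1.val % r ≠ q.1.val % r ∨ p.2 = q.2)

/-- the family of all points; `cl i` is the cluster and `s i` the parameter of the point `i` -/
def fam {k r N : ℕ} (e : Fin r → Fin k → ℝ) (cl : Fin N → Fin r) (s : Fin N → ℝ) (δ : ℝ) :
    Fin N → W k :=
  fun m => X (e (cl m)) (fV (e (cl m))) (gV (e (cl m))) ((cl m).val : ℝ) δ (s m)

/-- a system of sign vectors, pairwise different up to sign -/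
def Sys {k r : ℕ} (e : Fin r → Fin k → ℝ) : Prop :=
  (∀ i, IsSign (e i)) ∧ ∀ i j, i ≠ j → (∃ a, e i a = e j a) ∧ (∃ a, e i a = -e j a)

/-- admissible parameters -/
def Adm {k r N : ℕ} (cl : Fin N → Fin r) (s : Fin N → ℝ) : Prop :=
  (∀ i, 0 < s i ∧ s i ≤ eta k r) ∧ (∀ i j, i ≠ j → cl i = cl j → s i ≠ s j) ∧
    ∀ i j, cl i < cl j → 2 * k * K0 r * s i < s j

/-! ### Statements -/

/-- (Sgn) sign vectors. Proof: an equivalence of `Fin (2^(k-1))` with `Fin (k-1) → Bool`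
(cardinalities), first coordinate `1`, the others `±1` as the Bool says. -/
def St_Sgn : Prop := ∀ k : ℕ, 1 ≤ k → ∃ e : Fin (2 ^ (k - 1)) → Fin k → ℝ, Sys e

/-- (Lam) Let `J = {a | e a = e' a}`, `I` the complement, `p = |J| ≥ 1`, `q = |I| ≥ 1`, `p + q = k`;
`lam a = e a * Λ / p` on `J` and `lam a = e a * H / q` on `I`. For a sign vector `z` put
`S_J = ∑_{a ∈ J} e a * z a`, `S_I` likewise, so `∑ lam a * z a = Λ S_J / p + H S_I / q`.
`S_J = p - 2 * #{a ∈ J | z a = - e a}`. If `|S_J| ≤ p - 2` then the first alternative holds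
(`2 / p ≥ 2 / k`). If `S_J = p` then `z = e` on `J`; `z ≠ e` gives `S_I ≤ q - 2`, `z ≠ e'` gives
`S_I ≥ - (q - 2)`: second alternative with `c = S_I / q`. If `S_J = - p` the same for `-z`. -/
def St_Lam : Prop := ∀ (k : ℕ) (e e' : Fin k → ℝ), IsSign e → IsSign e' →
  (∃ a, e a = e' a) → (∃ a, e a = -e' a) → ∀ Λ H : ℝ, 0 ≤ Λ → ∃ lam : Fin k → ℝ,
    ∑ a, lam a * e a = Λ + H ∧ ∑ a, lam a * e' a = Λ - H ∧
    ∀ z : Fin k → ℝ, IsSign z → z ≠ e → z ≠ -e → z ≠ e' → z ≠ -e' →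
      |∑ a, lam a * z a| ≤ Λ * (1 - 2 / k) + |H| ∨
      ∃ c : ℝ, |c| ≤ 1 - 2 / k ∧
        (∑ a, lam a * z a = Λ + H * c ∨ ∑ a, lam a * z a = -(Λ + H * c))

/-- (Crs) the functional for two points in different clusters, `δ = 0`.
Proof: `θ = 2 s / (1 + s^2)`, `θ' = 2 t / (1 + t^2)`, `m₂ = (θ - σ θ') / (c - c' + θ - θ')`,
`m₁ = θ (1 - m₂) - c m₂`, `A = (1 + s^2 m₂) / (1 + s^2)`, `B = (1 + t^2 σ m₂) / (1 + t^2)`,
`Λ = (A + B) / 2`, `H = (A - B) / 2`, `lam` from (Lam) for `e` and `σ e'`, `l = Lf lam m₁ m₂`.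
Then `m₁ + c m₂ = θ (1 - m₂)`, `m₁ + c' m₂ = θ' (σ - m₂)`, and
`l (X e f g c 0 x) = (1 - x^2) A + x (m₁ + c m₂) + x^2 m₂ = 1 - q (x - s)^2` with
`q = (1 - m₂) / (1 + s^2)`; the same for `σ l`, `e'`, `c'`, `t` with `q' = (1 - σ m₂) / (1 + t^2)`.
Bounds: `η = eta k R ≤ 1/100`, `θ ≤ 2 s`, `θ' ≤ 2 t`, the denominator of `m₂` is at least `1/2` in
absolute value, `|m₂| ≤ 8 t`, `|m₁| ≤ (8 R + 4) t`, so `M = m₁ x + m₂ (c'' x + x^2)` satisfies
`|M| ≤ K0 R * t * x`. `1 - A = s^2 (1 - m₂) / (1 + s^2) ∈ [0, 2 t^2]`,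
`1 - B = t^2 (1 - σ m₂) / (1 + t^2) ∈ [t^2 / 2, 2 t^2]`, `|H| ≤ t^2`. For `z` in the first case of
(Lam) `|l (X z ..)| ≤ (1 - 2/k) + t^2 + K0 R t x < 1`. In the other case `U = 1 - (Λ + H c)
= (1 + c)/2 (1 - A) + (1 - c)/2 (1 - B) ≥ (1/k) (t^2 / 2)` and `U ≤ 1/2`, the value is
`± (1 - x^2) (1 - U) + M` and `(1 - x^2) (1 - U) ≤ 1 - U - x^2 / 2`; finally
`K0 R t x < t^2 / (2 k) + x^2 / 2` in both cases of the hypothesis on `x`. -/
def St_Crs : Prop := ∀ (k : ℕ) (R : ℝ) (e e' : Fin k → ℝ) (c c' σ s t : ℝ), 1 ≤ k → 1 ≤ R →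
  IsSign e → IsSign e' → (∃ a, e a = e' a) → (∃ a, e a = -e' a) → |c| ≤ R → |c'| ≤ R →
  1 ≤ |c - c'| → (σ = 1 ∨ σ = -1) → 0 < s → s ≤ t → t ≤ eta k R →
  ∃ l : W k →ₗ[ℝ] ℝ,
    (∃ q : ℝ, 0 < q ∧ q ≤ 2 ∧ ∀ (f g : Fin k → ℝ) (x : ℝ),
      l (X e f g c 0 x) = 1 - q * (x - s) ^ 2) ∧
    (∃ q : ℝ, 0 < q ∧ q ≤ 2 ∧ ∀ (f g : Fin k → ℝ) (x : ℝ),
      l (X e' f g c' 0 x) = σ * (1 - q * (x - t) ^ 2)) ∧
    ∀ (z f g : Fin k → ℝ) (c'' x : ℝ), IsSign z → z ≠ e → z ≠ -e → z ≠ e' → z ≠ -e' →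
      |c''| ≤ R → 0 < x → x ≤ eta k R → (2 * k * K0 R * x < t ∨ 2 * K0 R * t < x) →
      |l (X z f g c'' 0 x)| < 1

/-- (Inn) the functional for two points in the same cluster, `δ ≥ 0`.
Proof: `S = s₁ + s₂`, `P = s₁ s₂`, `A = 1 - δ P^2`, `m₂ = A - δ (S^2 + 2 P)`,
`m₁ = 2 δ S P - c m₂`, `lam = (A / k) e + (S / 3) fV e - (1 / (8 k^2)) gV e`. As `e`, `fV e`,
`gV e` are orthogonal with squared lengths `k`, `6`, `8 k^2`, the value at `X e (fV e) (gV e) c δ x`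
is `A (1 - x^2) + δ (2 S x^3 - x^4) + x (m₁ + c m₂) + x^2 m₂`. For `z ≠ ± e` one has
`|∑ e a * z a| ≤ k - 2`, `|∑ fV e a * z a| ≤ 4`, `|∑ gV e a * z a| ≤ 4 k`, so for `δ = 0` the value
is at most `1 - 2/k + (4/3) S + 1/(2 k) + (2 R + 1) x < 1`. Everything is a polynomial in `δ`. -/
def St_Inn : Prop := ∀ (k : ℕ) (R : ℝ) (e : Fin k → ℝ) (c s₁ s₂ : ℝ), 3 ≤ k → 1 ≤ R →
  IsSign e → |c| ≤ R → 0 < s₁ → s₁ ≤ eta k R → 0 < s₂ → s₂ ≤ eta k R →
  ∃ l : ℝ → W k →ₗ[ℝ] ℝ,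
    (∀ δ x : ℝ, l δ (X e (fV e) (gV e) c δ x) = 1 - δ * (x - s₁) ^ 2 * (x - s₂) ^ 2) ∧
    ∀ (z f g : Fin k → ℝ) (c'' x : ℝ), IsSign z → z ≠ e → z ≠ -e → |c''| ≤ R → 0 < x →
      x ≤ eta k R → (Continuous fun δ : ℝ => l δ (X z f g c'' δ x)) ∧
        |l 0 (X z f g c'' 0 x)| < 1

/-- (Par) parameters. Proof: `s i = (η / 2) * (2 C + 1)⁻¹ ^ (r - cl i) * (1 + i / N)`. -/
def St_Par : Prop := ∀ (r N : ℕ) (cl : Fin N → Fin r) (η C : ℝ), 0 < η → 1 ≤ C →
  ∃ s : Fin N → ℝ, (∀ i, 0 < s i ∧ s i ≤ η) ∧ (∀ i j, i ≠ j → cl i = cl j → s i ≠ s j) ∧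
    ∀ i j, cl i < cl j → C * s i < s j

/-- (FC) all pairs in different clusters are edges for `δ = 0`. From (Crs) with `R = r`; for
`cl j < cl i` exchange the two points. For the third point `m`: `cl m = cl i` or `cl m = cl j` by
the first two clauses of (Crs) (`0 < q (x - s)^2 < 2`, `s i ≠ s m`), otherwise the third clause. -/
def St_FC : Prop := ∀ (k r N : ℕ) (e : Fin r → Fin k → ℝ) (cl : Fin N → Fin r) (s : Fin N → ℝ),
  1 ≤ k → Sys e → Adm (k := k) cl s → ∀ (i j : Fin N) (b c : Bool), cl i ≠ cl j →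
    SE (fam e cl s 0) (i, b) (j, c)

/-- (FI) pairs in the same cluster are edges for small `δ > 0`. From (Inn) with `R = r`. -/
def St_FI : Prop := ∀ (k r N : ℕ) (e : Fin r → Fin k → ℝ) (cl : Fin N → Fin r) (s : Fin N → ℝ),
  3 ≤ k → Sys e → Adm (k := k) cl s → ∀ (i j : Fin N) (b : Bool), i ≠ j → cl i = cl j →
    ∀ᶠ δ in 𝓝[>] (0 : ℝ), SE (fam e cl s δ) (i, b) (j, b)

/-- (Cf) the configuration in `E (k + 2)`. Proof: `r = 2^(k-1)`, `cl i = i % r`, (Sgn), (Par) with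
`η = eta k r`, `C = 2 k K0 r`; a linear equivalence `W k ≃ₗ E (k + 2)` (equal `finrank`) carries
`fam e cl s δ` to `E (k + 2)`. For `δ = 0`: pairs in different clusters by (FC); `SV` for a point
`(i, b)`: take `j` in another cluster and the mean of the functionals of `(j, true)` and
`(j, false)`. So all points are different, and `persGPert`, `pers1GPert`
(Pool/Agent/CS4/GPert.lean) with `P = ℝ` give all this for small `δ`; then (FI). -/
def St_Cf : Prop := ∀ k N : ℕ, 3 ≤ k → 2 ≤ N → ∃ v : Fin N → E (k + 2),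
  (∀ p, SV v p) ∧ ∀ p q, Good (2 ^ (k - 1)) p q → SE v p q

open Classical in
/-- (Gn) general position. Proof: as the end of the proof of `gpert` in
Pool/Agent/CS4/GPert.lean: `SV` shows that `pt v` is injective (`pt v = ptGPert v` by `rfl`),
`pers1GPert`, `persGPert` and `ggpd` give `v'` near `v` in general position, `neIxGPert`. -/
def St_Gn : Prop := ∀ (d N r : ℕ) (v : Fin N → E d), 2 ≤ d → d ≤ N → (∀ p, SV v p) →
  (∀ p q, Good r p q → SE v p q) → ∃ V : Finset (E d), Conf d V ∧ V.card = 2 * N ∧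
    ((Finset.univ : Finset ((Fin N × Bool) × (Fin N × Bool))).filter
      fun z => Good r z.1 z.2).card ≤ ne V

open Classical in
/-- (Ct) the number of pairs. Proof: with `T` the number of pairs `(i, j)` with `i % r = j % r`
(`T ≤ N (N / r + 1)`) the number is `4 (N^2 - T) + 2 (T - N)`. -/
def St_Ct : Prop := ∀ N r : ℕ, 1 ≤ r → (4 - 2 / r) * (N : ℝ) ^ 2 - 4 * N ≤
  (((Finset.univ : Finset ((Fin N × Bool) × (Fin N × Bool))).filter
      fun z => Good r z.1 z.2).card : ℝ)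

end Pool.CSLB
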