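import Pool.Agent.CSLB.Defs

/-!
CSLB FC: all pairs in different clusters are edges for `δ = 0`.
-/

open Finset Filter Topology

noncomputable section

namespace Pool.CSLB

open Pool.CS4

/-- the sign of a Bool -/
private def sg (b : Bool) : ℝ := if b then 1 else -1

private lemma sg_mul (b : Bool) : sg b * sg b = 1 := by
  cases b <;> norm_num [sg]

private lemma pt_eq {V : Type} [AddCommGroup V] [Module ℝ V] {N : ℕ} (v : Fin N → V)
    (i : Fin N) (b : Bool) : pt v (i, b) = sg b • v i := by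
  cases b
  · simp [pt, sg]
  · simp [pt, sg]

private lemma sg_not (b b' : Bool) (h : b' ≠ b) : sg b' = -sg b := by
  cases b <;> cases b' <;> simp_all [sg]

/-- symmetric form of the statement for one pair -/
private lemma SE_symm {V : Type} [AddCommGroup V] [Module ℝ V] {N : ℕ} {v : Fin N → V}
    {p q : Fin N × Bool} (h : SE v p q) : SE v q p := by
  obtain ⟨l, h1, h2, h3⟩ := h
  exact ⟨l, h2, h1, fun u a b => h3 u b a⟩

private lemma SE_of {V : Type} [AddCommGroup V] [Module ℝ V] {N : ℕ} (v : Fin N → V)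
    (i j : Fin N) (b c : Bool) (l : V →ₗ[ℝ] ℝ) (h1 : l (v i) = 1)
    (h2 : l (v j) = sg b * sg c) (h3 : ∀ m, m ≠ i → m ≠ j → |l (v m)| < 1) :
    SE v (i, b) (j, c) := by
  refine ⟨sg b • l, ?_, ?_, ?_⟩
  · rw [pt_eq, LinearMap.smul_apply, map_smul, h1, smul_eq_mul, smul_eq_mul, mul_one, sg_mul]
  · rw [pt_eq, LinearMap.smul_apply, map_smul, h2, smul_eq_mul, smul_eq_mul]
    calc sg b * (sg c * (sg b * sg c)) = (sg b * sg b) * (sg c * sg c) := by ring
      _ = 1 := by rw [sg_mul, sg_mul, mul_one]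
  · rintro ⟨m, d⟩ hi hj
    rw [pt_eq, LinearMap.smul_apply, map_smul, smul_eq_mul, smul_eq_mul]
    by_cases hmi : m = i
    · subst hmi
      have hd : d ≠ b := fun h => hi (by rw [h])
      rw [h1, sg_not b d hd, mul_one]
      have := sg_mul b
      linarith
    · by_cases hmj : m = j
      · subst hmj
        have hd : d ≠ c := fun h => hj (by rw [h])
        rw [h2, sg_not c d hd]
        have : sg b * (-sg c * (sg b * sg c)) = -((sg b * sg b) * (sg c * sg c)) := by ring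
        rw [this, sg_mul, sg_mul]
        norm_num
      · have h4 := h3 m hmi hmj
        have h5 : |sg b * (sg d * l (v m))| = |l (v m)| := by
          rw [abs_mul, abs_mul]
          have hb : |sg b| = 1 := by cases b <;> simp [sg]
          have hd : |sg d| = 1 := by cases d <;> simp [sg]
          rw [hb, hd, one_mul, one_mul]
        exact (abs_lt.1 (h5 ▸ h4)).2

private lemma eta_le {k : ℕ} {R : ℝ} (hk : 1 ≤ k) (hR : 1 ≤ R) : eta k R ≤ 1 / 100 := by
  unfold eta
  have hkR : (1 : ℝ) ≤ k := by exact_mod_cast hk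
  have h1 : (1 : ℝ) ≤ k * R := one_le_mul_of_one_le_of_one_le hkR hR
  apply one_div_le_one_div_of_le (by norm_num)
  nlinarith

private lemma quad {q x y : ℝ} (hq : 0 < q) (hq2 : q ≤ 2) (hx : 0 < x) (hx1 : x ≤ 1 / 100)
    (hy : 0 < y) (hy1 : y ≤ 1 / 100) (hxy : x ≠ y) : |1 - q * (x - y) ^ 2| < 1 := by
  have h1 : 0 < (x - y) ^ 2 := by
    have : x - y ≠ 0 := sub_ne_zero.2 hxy
    positivity
  have h2 : (x - y) ^ 2 ≤ 1 / 100 := by nlinarith
  have h3 : 0 < q * (x - y) ^ 2 := mul_pos hq h1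
  have h4 : q * (x - y) ^ 2 ≤ 2 * (1 / 100) := mul_le_mul hq2 h2 h1.le (by norm_num)
  rw [abs_lt]
  constructor <;> linarith

private lemma sign_ne {k : ℕ} {z e : Fin k → ℝ} (hz : IsSign z)
    (h1 : ∃ a, z a = e a) (h2 : ∃ a, z a = -e a) : z ≠ e ∧ z ≠ -e := by
  constructor
  · rintro rfl
    obtain ⟨a, ha⟩ := h2
    rcases hz a with h | h <;> rw [h] at ha <;> norm_num at ha
  · intro h
    obtain ⟨a, ha⟩ := h1
    have h3 : z a = -e a := by rw [h]; rfl
    have h4 : z a = 0 := by linarith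
    rcases hz a with h | h <;> rw [h] at h4 <;> norm_num at h4

private lemma fc_lt (h : St_Crs) (k r N : ℕ) (e : Fin r → Fin k → ℝ) (cl : Fin N → Fin r)
    (s : Fin N → ℝ) (hk : 1 ≤ k) (he : Sys e) (ha : Adm (k := k) cl s) (i j : Fin N)
    (b c : Bool) (hij : cl i < cl j) : SE (fam e cl s 0) (i, b) (j, c) := by
  obtain ⟨hs, hne, hord⟩ := ha
  have hr : 1 ≤ r := by
    have := (cl i).isLt
    omega
  have hrR : (1 : ℝ) ≤ r := by exact_mod_cast hr
  have hkR : (1 : ℝ) ≤ k := by exact_mod_cast hk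
  have hK : 1 ≤ K0 (r : ℝ) := by unfold K0; linarith
  have hcl : ∀ m : Fin N, |(((cl m).val : ℕ) : ℝ)| ≤ (r : ℝ) := by
    intro m
    rw [abs_of_nonneg (Nat.cast_nonneg _)]
    exact_mod_cast (cl m).isLt.le
  have hcc : 1 ≤ |(((cl i).val : ℕ) : ℝ) - (((cl j).val : ℕ) : ℝ)| := by
    have h1 : (cl i).val + 1 ≤ (cl j).val := hij
    have h2 : (((cl i).val : ℕ) : ℝ) + 1 ≤ (((cl j).val : ℕ) : ℝ) := by exact_mod_cast h1
    rw [abs_sub_comm]
    exact le_trans (by linarith) (le_abs_self _)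
  have hst : s i ≤ s j := by
    have h1 := hord i j hij
    have h2 : 1 ≤ 2 * (k : ℝ) * K0 (r : ℝ) := by
      have : 1 ≤ (k : ℝ) * K0 (r : ℝ) := one_le_mul_of_one_le_of_one_le hkR hK
      nlinarith
    have h3 : s i ≤ 2 * (k : ℝ) * K0 (r : ℝ) * s i := le_mul_of_one_le_left (hs i).1.le h2
    linarith
  have hdiff : ∀ m m' : Fin N, cl m ≠ cl m' →
      e (cl m) ≠ e (cl m') ∧ e (cl m) ≠ -e (cl m') := fun m m' hmm =>
    sign_ne (he.1 _) (he.2 _ _ hmm).1 (he.2 _ _ hmm).2
  have hσ : sg b * sg c = 1 ∨ sg b * sg c = -1 := by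
    cases b <;> cases c <;> norm_num [sg]
  obtain ⟨l, ⟨q, hq0, hq2, hq⟩, ⟨q', hq'0, hq'2, hq'⟩, h3⟩ :=
    h k (r : ℝ) (e (cl i)) (e (cl j)) (((cl i).val : ℕ) : ℝ) (((cl j).val : ℕ) : ℝ)
      (sg b * sg c) (s i) (s j) hk hrR (he.1 _) (he.1 _) (he.2 _ _ hij.ne).1
      (he.2 _ _ hij.ne).2 (hcl i) (hcl j) hcc hσ (hs i).1 hst (hs j).2
  have heta := eta_le (k := k) (R := (r : ℝ)) hk hrR
  refine SE_of _ i j b c l ?_ ?_ ?_
  · show l (X (e (cl i)) (fV (e (cl i))) (gV (e (cl i))) ((cl i).val : ℝ) 0 (s i)) = 1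
    rw [hq]
    ring
  · show l (X (e (cl j)) (fV (e (cl j))) (gV (e (cl j))) ((cl j).val : ℝ) 0 (s j)) = _
    rw [hq']
    ring
  · intro m hmi hmj
    show |l (X (e (cl m)) (fV (e (cl m))) (gV (e (cl m))) ((cl m).val : ℝ) 0 (s m))| < 1
    by_cases c1 : cl m = cl i
    · rw [c1, hq]
      exact quad hq0 hq2 (hs m).1 ((hs m).2.trans heta) (hs i).1 ((hs i).2.trans heta)
        (hne m i hmi c1)
    · by_cases c2 : cl m = cl j
      · rw [c2, hq', abs_mul]
        have hab : |sg b * sg c| = 1 := by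
          rcases hσ with h | h <;> rw [h] <;> norm_num
        rw [hab, one_mul]
        exact quad hq'0 hq'2 (hs m).1 ((hs m).2.trans heta) (hs j).1 ((hs j).2.trans heta)
          (hne m j hmj c2)
      · refine h3 _ _ _ _ _ (he.1 _) (hdiff m i c1).1 (hdiff m i c1).2 (hdiff m j c2).1
          (hdiff m j c2).2 (hcl m) (hs m).1 (hs m).2 ?_
        rcases lt_or_gt_of_ne c2 with h4 | h4
        · left
          exact hord m j h4
        · right
          have h5 := hord j m h4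
          have h6 : 2 * K0 (r : ℝ) * s j ≤ 2 * (k : ℝ) * K0 (r : ℝ) * s j := by
            apply mul_le_mul_of_nonneg_right _ (hs j).1.le
            nlinarith
          linarith

theorem fc (h : St_Crs) : St_FC := by
  intro k r N e cl s hk he ha i j b c hij
  rcases lt_or_gt_of_ne hij with h1 | h1
  · exact fc_lt h k r N e cl s hk he ha i j b c h1
  · exact SE_symm (fc_lt h k r N e cl s hk he ha j i c b h1)

end Pool.CSLB
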