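import Pool.Agent.CSLB.Defs

/-!
CSLB, module FI (MP_54ed1a_co): pairs in the same cluster are edges for small `δ > 0`.
-/

open Finset Filter Topology

noncomputable section

namespace Pool.CSLB

open Pool.CS4

private theorem fi_pt {V : Type} [AddCommGroup V] [Module ℝ V] {N : ℕ} (v : Fin N → V)
    (l : V →ₗ[ℝ] ℝ) (b : Bool) (u : Fin N × Bool) :
    (if b then l else -l) (pt v u) = if u.2 = b then l (v u.1) else -l (v u.1) := by
  obtain ⟨m, c⟩ := u
  cases b <;> cases c <;> simp [pt]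

private theorem fi_ne {k r : ℕ} {e : Fin r → Fin k → ℝ} (h : Sys e) {i j : Fin r} (hij : i ≠ j) :
    e i ≠ e j ∧ e i ≠ -e j := by
  obtain ⟨h1, h2⟩ := h
  obtain ⟨⟨a, ha⟩, ⟨a', ha'⟩⟩ := h2 i j hij
  constructor
  · intro h3
    rw [h3] at ha'
    rcases h1 j a' with h4 | h4 <;> rw [h4] at ha' <;> norm_num at ha'
  · intro h3
    have h5 : e i a = -e j a := by rw [h3]; rfl
    rw [ha] at h5
    rcases h1 j a with h4 | h4 <;> rw [h4] at h5 <;> norm_num at h5

theorem fi (h : St_Inn) : St_FI := by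
  intro k r N e cl s hk hS hA i j b hij hc
  have hr : 0 < r := lt_of_le_of_lt (Nat.zero_le _) (cl i).2
  have hr1 : (1 : ℝ) ≤ r := by exact_mod_cast hr
  have hcl : ∀ m : Fin N, |((cl m).val : ℝ)| ≤ (r : ℝ) := by
    intro m
    rw [abs_of_nonneg (Nat.cast_nonneg _)]
    exact_mod_cast (cl m).2.le
  obtain ⟨hA1, hA2, -⟩ := hA
  obtain ⟨l, hl1, hl2⟩ := h k r (e (cl i)) ((cl i).val : ℝ) (s i) (s j) hk hr1 (hS.1 (cl i))
    (hcl i) (hA1 i).1 (hA1 i).2 (hA1 j).1 (hA1 j).2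
  -- the value at a point of the same cluster
  have hv : ∀ (δ : ℝ) (m : Fin N), cl m = cl i →
      l δ (fam e cl s δ m) = 1 - δ * (s m - s i) ^ 2 * (s m - s j) ^ 2 := by
    intro δ m hm
    have h1 : fam e cl s δ m = X (e (cl i)) (fV (e (cl i))) (gV (e (cl i))) ((cl i).val : ℝ) δ
        (s m) := by
      unfold fam
      rw [hm]
    rw [h1, hl1]
  have hvi : ∀ δ : ℝ, l δ (fam e cl s δ i) = 1 := by
    intro δ
    rw [hv δ i rfl]
    ring
  have hvj : ∀ δ : ℝ, l δ (fam e cl s δ j) = 1 := by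
    intro δ
    rw [hv δ j hc.symm]
    ring
  have key : ∀ m : Fin N, ∀ᶠ δ in 𝓝[>] (0 : ℝ), m ≠ i → m ≠ j →
      |l δ (fam e cl s δ m)| < 1 := by
    intro m
    by_cases hmi : m = i
    · exact Eventually.of_forall fun δ h1 => absurd hmi h1
    by_cases hmj : m = j
    · exact Eventually.of_forall fun δ _ h1 => absurd hmj h1
    by_cases hm : cl m = cl i
    · have hp : 0 < (s m - s i) ^ 2 * (s m - s j) ^ 2 := by
        have h1 : s m - s i ≠ 0 := sub_ne_zero.2 (hA2 m i hmi hm)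
        have h2 : s m - s j ≠ 0 := sub_ne_zero.2 (hA2 m j hmj (hm.trans hc))
        positivity
      set p := (s m - s i) ^ 2 * (s m - s j) ^ 2 with hpd
      have h1 : ∀ᶠ δ in 𝓝[>] (0 : ℝ), δ < 2 / p :=
        mem_nhdsWithin_of_mem_nhds (Iio_mem_nhds (by positivity))
      filter_upwards [h1, self_mem_nhdsWithin] with δ h2 h3 _ _
      have h3' : 0 < δ := h3
      have h4 : l δ (fam e cl s δ m) = 1 - δ * p := by
        rw [hv δ m hm, hpd]
        ring
      have h5 : δ * p < 2 := (lt_div_iff₀ hp).1 h2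
      have h6 : 0 < δ * p := mul_pos h3' hp
      rw [h4, abs_lt]
      constructor <;> linarith
    · obtain ⟨n1, n2⟩ := fi_ne hS hm
      obtain ⟨hcont, h0⟩ := hl2 (e (cl m)) (fV (e (cl m))) (gV (e (cl m))) ((cl m).val : ℝ) (s m)
        (hS.1 (cl m)) n1 n2 (hcl m) (hA1 m).1 (hA1 m).2
      have h1 : ∀ᶠ δ in 𝓝 (0 : ℝ),
          |l δ (X (e (cl m)) (fV (e (cl m))) (gV (e (cl m))) ((cl m).val : ℝ) δ (s m))| < 1 :=
        (hcont.abs.tendsto 0).eventually (gt_mem_nhds h0)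
      filter_upwards [h1.filter_mono nhdsWithin_le_nhds] with δ h2 _ _
      exact h2
  have key2 : ∀ᶠ δ in 𝓝[>] (0 : ℝ), ∀ m : Fin N, m ≠ i → m ≠ j →
      |l δ (fam e cl s δ m)| < 1 := eventually_all.2 key
  filter_upwards [key2] with δ hδ
  refine ⟨if b then l δ else -l δ, ?_, ?_, ?_⟩
  · rw [fi_pt, if_pos rfl]
    exact hvi δ
  · rw [fi_pt, if_pos rfl]
    exact hvj δ
  · intro u hu1 hu2
    rw [fi_pt]
    by_cases hmi : u.1 = i
    · have h1 : ¬ u.2 = b := fun h2 => hu1 (Prod.ext hmi h2)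
      rw [if_neg h1, hmi, hvi]
      norm_num
    by_cases hmj : u.1 = j
    · have h1 : ¬ u.2 = b := fun h2 => hu2 (Prod.ext hmj h2)
      rw [if_neg h1, hmj, hvj]
      norm_num
    have h1 := abs_lt.1 (hδ u.1 hmi hmj)
    split_ifs
    · exact h1.2
    · linarith [h1.1]

end Pool.CSLB
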