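import Pool.Agent.CSLB.Defs
import Pool.Agent.CS4.GPert
import Pool.Agent.CS4.GGPd

/-!
Centrally symmetric polytopes with many edges: perturbation into general position.
-/

open Finset Filter Topology

noncomputable section

namespace Pool.CSLB

open Pool.CS4

open Classical in
theorem gn : St_Gn := by
  intro d N r v hd hdN hSV hSE
  have hinj : Function.Injective (ptGPert v) := by
    intro p q hpq
    by_contra hne
    obtain ⟨l, hl, hl'⟩ := hSV p
    have h2 : l (ptGPert v q) < 1 := hl' q (Ne.symm hne)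
    have h3 : l (ptGPert v p) = 1 := hl
    rw [hpq] at h3
    linarith
  have hnear : ∀ᶠ v' in 𝓝 v,
      (∀ k, ∃ l : E d →ₗ[ℝ] ℝ, l (ptGPert v' k) = 1 ∧ ∀ u, u ≠ k → l (ptGPert v' u) < 1) ∧
      (∀ k j, Good r k j → ∃ l : E d →ₗ[ℝ] ℝ, l (ptGPert v' k) = 1 ∧ l (ptGPert v' j) = 1 ∧
        ∀ u, u ≠ k → u ≠ j → l (ptGPert v' u) < 1) := by
    refine Filter.Eventually.and ?_ ?_
    · rw [eventually_all]
      intro k
      obtain ⟨l, hl, hl'⟩ := hSV k
      exact pers1GPert (P := Fin N → E d) (fun v k => ptGPert v k) v k ptContGPert l hl hl'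
    · rw [eventually_all]
      intro k
      rw [eventually_all]
      intro j
      by_cases hG : Good r k j
      · obtain ⟨l, hlx, hly, hl⟩ := hSE k j hG
        have hne : ptGPert v k ≠ ptGPert v j := fun h => hG.1 (congrArg Prod.fst (hinj h))
        have h1 := persGPert (P := Fin N → E d) (fun v k => ptGPert v k) v k j ptContGPert hne l
          hlx hly hl
        filter_upwards [h1] with v' h2 _
        exact h2
      · exact Eventually.of_forall fun _ h => absurd h hG
  obtain ⟨ρ, hρ, hball⟩ := Metric.eventually_nhds_iff.1 hnear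
  obtain ⟨v', hv', hGP, hc'⟩ := ggpd d N v ρ (by omega) hρ
  have hdist : dist v' v < ρ := (dist_pi_lt_iff hρ).2 hv'
  obtain ⟨hA, hB⟩ := hball hdist
  have hinj' : Function.Injective (ptGPert v') := ptInjGPert hc'
  have hsymm' : ∀ x ∈ sset v', -x ∈ sset v' := by
    intro x hx
    obtain ⟨k, rfl⟩ := mem_ssetGPert.1 hx
    exact mem_ssetGPert.2 (ptNegGPert v' k)
  refine ⟨sset v', ⟨hsymm', hGP, ?_, ?_⟩, hc', ?_⟩
  · intro x hx
    obtain ⟨k, rfl⟩ := mem_ssetGPert.1 hx
    obtain ⟨l, hl, hl'⟩ := hA k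
    refine ⟨l, hl, ?_⟩
    intro u hu huk
    obtain ⟨j, rfl⟩ := mem_ssetGPert.1 hu
    exact hl' j fun h4 => huk (by rw [h4])
  · have hv'inj : Function.Injective v' := by
      intro i j hij
      have h4 : ptGPert v' (i, true) = ptGPert v' (j, true) := hij
      exact (Prod.mk.inj (hinj' h4)).1
    have hX'card : (Finset.univ.image v').card = N := by
      rw [Finset.card_image_of_injective _ hv'inj, Finset.card_univ, Fintype.card_fin]
    obtain ⟨S, hSX, hSc⟩ := Finset.exists_subset_card_eq (show d ≤ (Finset.univ.image v').card by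
      rw [hX'card]
      exact hdN)
    have hSV' : S ⊆ sset v' := by
      intro x hx
      obtain ⟨i, -, rfl⟩ := Finset.mem_image.1 (hSX hx)
      exact mem_ssetGPert.2 ⟨(i, true), rfl⟩
    have hSA : NoAnti S := by
      intro x hx hx'
      obtain ⟨i, -, rfl⟩ := Finset.mem_image.1 (hSX hx)
      obtain ⟨j, -, hj⟩ := Finset.mem_image.1 (hSX hx')
      have h4 : ptGPert v' (j, true) = ptGPert v' (i, false) := hj
      have h5 := (Prod.mk.inj (hinj' h4)).2
      exact absurd h5 (by decide)
    have hli := (hGP S hSV' hSA).1 hSc.le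
    have h4 := hli.span_eq_top_of_card_eq_finrank' (by
      rw [Fintype.card_coe, hSc]
      simp [E])
    rw [eq_top_iff, ← h4]
    refine Submodule.span_mono ?_
    rintro _ ⟨x, rfl⟩
    exact hSV' x.2
  · have h5 := neIxGPert hinj' (fun k j => Edg (sset v') (ptGPert v' k) (ptGPert v' j))
      (fun k j => Iff.rfl)
    rw [h5]
    refine Finset.card_le_card ?_
    rintro ⟨k, j⟩ hz
    have hG : Good r k j := (Finset.mem_filter.1 hz).2
    refine Finset.mem_filter.2 ⟨Finset.mem_univ _, ?_⟩
    obtain ⟨l, hlx, hly, hl⟩ := hB k j hG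
    refine ⟨fun h6 => hG.1 (congrArg Prod.fst (hinj' h6)), l, hlx, hly, ?_⟩
    intro u hu huk huj
    obtain ⟨i, rfl⟩ := mem_ssetGPert.1 hu
    exact hl i (fun h6 => huk (by rw [h6])) fun h6 => huj (by rw [h6])

end Pool.CSLB
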