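import Pool.Agent.CSLB.Defs

/-!
MP_54ed1a_co, module Inn: the functional for two points of the same cluster.
-/

set_option autoImplicit false

open Finset

noncomputable section

namespace Pool.CSLB

/-- a sum with three terms -/
theorem inn_sum3 (k : ℕ) (hk : 3 ≤ k) (F : Fin k → ℝ) (h : ∀ a : Fin k, 3 ≤ a.val → F a = 0) :
    ∑ a, F a = F ⟨0, by omega⟩ + F ⟨1, by omega⟩ + F ⟨2, by omega⟩ := by
  obtain ⟨n, rfl⟩ : ∃ n, k = n + 3 := ⟨k - 3, by omega⟩
  rw [Fin.sum_univ_succ, Fin.sum_univ_succ, Fin.sum_univ_succ]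
  have h1 : ∑ i : Fin n, F i.succ.succ.succ = 0 :=
    Finset.sum_eq_zero fun i _ => h _ (by simp)
  rw [h1, add_zero, ← add_assoc]
  rfl

theorem inn_fV {k : ℕ} (hk : 3 ≤ k) (e z : Fin k → ℝ) :
    ∑ a, fV e a * z a = e ⟨0, by omega⟩ * z ⟨0, by omega⟩ + e ⟨1, by omega⟩ * z ⟨1, by omega⟩ -
      2 * (e ⟨2, by omega⟩ * z ⟨2, by omega⟩) := by
  rw [inn_sum3 k hk]
  · simp only [fV]
    norm_num
    ring
  · intro a ha
    have h0 : a.val ≠ 0 := by omega
    have h1 : a.val ≠ 1 := by omega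
    have h2 : a.val ≠ 2 := by omega
    simp only [fV, if_neg h0, if_neg h1, if_neg h2, zero_mul]

theorem inn_gV {k : ℕ} (hk : 3 ≤ k) (e z : Fin k → ℝ) :
    ∑ a, gV e a * z a = 2 * k * (e ⟨0, by omega⟩ * z ⟨0, by omega⟩) -
      2 * k * (e ⟨1, by omega⟩ * z ⟨1, by omega⟩) := by
  rw [inn_sum3 k hk]
  · simp only [gV]
    norm_num
    ring
  · intro a ha
    have h0 : a.val ≠ 0 := by omega
    have h1 : a.val ≠ 1 := by omega
    simp only [gV, if_neg h0, if_neg h1, zero_mul]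

theorem inn_sq {k : ℕ} {e : Fin k → ℝ} (he : IsSign e) (a : Fin k) : e a * e a = 1 := by
  rcases he a with h | h <;> rw [h] <;> norm_num

theorem inn_pm {k : ℕ} {e z : Fin k → ℝ} (he : IsSign e) (hz : IsSign z) (a : Fin k) :
    e a * z a = 1 ∨ e a * z a = -1 := by
  rcases he a with h | h <;> rcases hz a with h' | h' <;> rw [h, h'] <;> norm_num

/-- two sign vectors which differ also up to sign -/
theorem inn_dot {k : ℕ} {e z : Fin k → ℝ} (he : IsSign e) (hz : IsSign z) (h1 : z ≠ e)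
    (h2 : z ≠ -e) : |∑ a, e a * z a| ≤ k - 2 := by
  obtain ⟨a, ha⟩ := Function.ne_iff.1 h1
  obtain ⟨b, hb⟩ := Function.ne_iff.1 h2
  have ha' : e a * z a = -1 := by
    rcases he a with h | h <;> rcases hz a with h' | h'
    · exact absurd (h'.trans h.symm) ha
    · rw [h, h']; norm_num
    · rw [h, h']; norm_num
    · exact absurd (h'.trans h.symm) ha
  have hb' : e b * z b = 1 := by
    rw [Pi.neg_apply] at hb
    rcases he b with h | h <;> rcases hz b with h' | h'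
    · rw [h, h']; norm_num
    · exact absurd (by rw [h, h']) hb
    · exact absurd (by rw [h, h', neg_neg]) hb
    · rw [h, h']; norm_num
  have hk : ∑ _a : Fin k, (1 : ℝ) = k := by simp
  have e1 : (2 : ℝ) ≤ ∑ a, (1 - e a * z a) := by
    have h3 := Finset.single_le_sum (f := fun a => 1 - e a * z a) (s := Finset.univ)
      (fun i _ => by
        show (0 : ℝ) ≤ 1 - e i * z i
        rcases inn_pm he hz i with h | h <;> rw [h] <;> norm_num) (Finset.mem_univ a)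
    have h4 : (1 : ℝ) - e a * z a = 2 := by rw [ha']; norm_num
    rw [← h4]
    exact h3
  have e2 : (2 : ℝ) ≤ ∑ a, (1 + e a * z a) := by
    have h3 := Finset.single_le_sum (f := fun a => 1 + e a * z a) (s := Finset.univ)
      (fun i _ => by
        show (0 : ℝ) ≤ 1 + e i * z i
        rcases inn_pm he hz i with h | h <;> rw [h] <;> norm_num) (Finset.mem_univ b)
    have h4 : (1 : ℝ) + e b * z b = 2 := by rw [hb']; norm_num
    rw [← h4]
    exact h3
  rw [Finset.sum_sub_distrib, hk] at e1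
  rw [Finset.sum_add_distrib, hk] at e2
  rw [abs_le]
  constructor <;> linarith

theorem inn_X {k : ℕ} (lam : Fin k → ℝ) (m₁ m₂ : ℝ) (e f g : Fin k → ℝ) (c δ s : ℝ) :
    Lf lam m₁ m₂ (X e f g c δ s) = (1 - s ^ 2) * ∑ a, lam a * e a +
      δ * (s ^ 3 * ∑ a, lam a * f a + s ^ 4 * ∑ a, lam a * g a) + m₁ * s +
      m₂ * (c * s + s ^ 2) := by
  have h : ∑ a, lam a * ((1 - s ^ 2) * e a + δ * (s ^ 3 * f a + s ^ 4 * g a)) =
      (1 - s ^ 2) * ∑ a, lam a * e a +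
      δ * (s ^ 3 * ∑ a, lam a * f a + s ^ 4 * ∑ a, lam a * g a) := by
    rw [Finset.mul_sum, Finset.mul_sum, Finset.mul_sum, ← Finset.sum_add_distrib, Finset.mul_sum,
      ← Finset.sum_add_distrib]
    exact Finset.sum_congr rfl fun a _ => by ring
  show ∑ a, lam a * ((1 - s ^ 2) * e a + δ * (s ^ 3 * f a + s ^ 4 * g a)) + m₁ * s +
    m₂ * (c * s + s ^ 2) = _
  rw [h]

theorem inn_lam {k : ℕ} (u v w : ℝ) (e f g z : Fin k → ℝ) :
    ∑ a, (u * e a + v * f a + w * g a) * z a = u * ∑ a, e a * z a + v * ∑ a, f a * z a +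
      w * ∑ a, g a * z a := by
  rw [Finset.mul_sum, Finset.mul_sum, Finset.mul_sum, ← Finset.sum_add_distrib,
    ← Finset.sum_add_distrib]
  exact Finset.sum_congr rfl fun a _ => by ring

theorem inn : St_Inn := by
  intro k R e c s₁ s₂ hk hR he hc h1 h1' h2 h2'
  have hk0 : (3 : ℝ) ≤ k := by exact_mod_cast hk
  have hkp : (0 : ℝ) < k := by linarith
  refine ⟨fun δ => Lf (fun a => (1 - δ * (s₁ * s₂) ^ 2) / k * e a + (s₁ + s₂) / 3 * fV e a +
    (-(1 / (8 * (k : ℝ) ^ 2))) * gV e a)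
    (2 * δ * (s₁ + s₂) * (s₁ * s₂) - c * (1 - δ * (s₁ * s₂) ^ 2 -
      δ * ((s₁ + s₂) ^ 2 + 2 * (s₁ * s₂))))
    (1 - δ * (s₁ * s₂) ^ 2 - δ * ((s₁ + s₂) ^ 2 + 2 * (s₁ * s₂))), ?_, ?_⟩
  · intro δ x
    have q0 := inn_sq he ⟨0, by omega⟩
    have q1 := inn_sq he ⟨1, by omega⟩
    have q2 := inn_sq he ⟨2, by omega⟩
    have hee : ∑ a, e a * e a = k := by
      rw [Finset.sum_congr rfl fun a _ => inn_sq he a]
      simp
    have hcomm : ∀ u v : Fin k → ℝ, ∑ a, u a * v a = ∑ a, v a * u a := fun u v =>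
      Finset.sum_congr rfl fun a _ => mul_comm _ _
    have hfe : ∑ a, fV e a * e a = 0 := by
      rw [inn_fV hk, q0, q1, q2]
      norm_num
    have hge : ∑ a, gV e a * e a = 0 := by
      rw [inn_gV hk, q0, q1]
      ring
    have f0 : fV e ⟨0, by omega⟩ = e ⟨0, by omega⟩ := by simp [fV]
    have f1 : fV e ⟨1, by omega⟩ = e ⟨1, by omega⟩ := by simp [fV]
    have f2 : fV e ⟨2, by omega⟩ = -2 * e ⟨2, by omega⟩ := by simp [fV]
    have g0 : gV e ⟨0, by omega⟩ = 2 * (k : ℝ) * e ⟨0, by omega⟩ := by simp [gV]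
    have g1 : gV e ⟨1, by omega⟩ = -(2 * (k : ℝ)) * e ⟨1, by omega⟩ := by simp [gV]
    have hff : ∑ a, fV e a * fV e a = 6 := by
      rw [inn_fV hk, f0, f1, f2]
      linear_combination q0 + q1 + 4 * q2
    have hgf : ∑ a, gV e a * fV e a = 0 := by
      rw [inn_gV hk, f0, f1, q0, q1]
      ring
    have hgg : ∑ a, gV e a * gV e a = 8 * (k : ℝ) ^ 2 := by
      rw [inn_gV hk, g0, g1]
      linear_combination 4 * (k : ℝ) ^ 2 * q0 + 4 * (k : ℝ) ^ 2 * q1
    have hef : ∑ a, e a * fV e a = 0 := by rw [hcomm, hfe]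
    have heg : ∑ a, e a * gV e a = 0 := by rw [hcomm, hge]
    have hfg : ∑ a, fV e a * gV e a = 0 := by rw [hcomm, hgf]
    show Lf _ _ _ (X e (fV e) (gV e) c δ x) = _
    rw [inn_X, inn_lam, inn_lam, inn_lam, hee, hfe, hge, hef, hff, hgf, heg, hfg, hgg]
    field_simp
    ring
  · intro z f g c'' x hz hze hze' hc'' hx hx'
    constructor
    · have hcont : (fun δ : ℝ => (Lf (fun a => (1 - δ * (s₁ * s₂) ^ 2) / k * e a +
          (s₁ + s₂) / 3 * fV e a + (-(1 / (8 * (k : ℝ) ^ 2))) * gV e a)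
          (2 * δ * (s₁ + s₂) * (s₁ * s₂) - c * (1 - δ * (s₁ * s₂) ^ 2 -
            δ * ((s₁ + s₂) ^ 2 + 2 * (s₁ * s₂))))
          (1 - δ * (s₁ * s₂) ^ 2 - δ * ((s₁ + s₂) ^ 2 + 2 * (s₁ * s₂)))) (X z f g c'' δ x)) =
          fun δ : ℝ => (1 - x ^ 2) * ((1 - δ * (s₁ * s₂) ^ 2) / k * ∑ a, e a * z a +
            (s₁ + s₂) / 3 * ∑ a, fV e a * z a +
            (-(1 / (8 * (k : ℝ) ^ 2))) * ∑ a, gV e a * z a) +
          δ * (x ^ 3 * ((1 - δ * (s₁ * s₂) ^ 2) / k * ∑ a, e a * f a +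
            (s₁ + s₂) / 3 * ∑ a, fV e a * f a +
            (-(1 / (8 * (k : ℝ) ^ 2))) * ∑ a, gV e a * f a) +
            x ^ 4 * ((1 - δ * (s₁ * s₂) ^ 2) / k * ∑ a, e a * g a +
            (s₁ + s₂) / 3 * ∑ a, fV e a * g a +
            (-(1 / (8 * (k : ℝ) ^ 2))) * ∑ a, gV e a * g a)) +
          (2 * δ * (s₁ + s₂) * (s₁ * s₂) - c * (1 - δ * (s₁ * s₂) ^ 2 -
            δ * ((s₁ + s₂) ^ 2 + 2 * (s₁ * s₂)))) * x +
          (1 - δ * (s₁ * s₂) ^ 2 - δ * ((s₁ + s₂) ^ 2 + 2 * (s₁ * s₂))) *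
            (c'' * x + x ^ 2) := by
        funext δ
        rw [inn_X, inn_lam, inn_lam, inn_lam]
      show Continuous (fun δ : ℝ => (Lf (fun a => (1 - δ * (s₁ * s₂) ^ 2) / k * e a +
          (s₁ + s₂) / 3 * fV e a + (-(1 / (8 * (k : ℝ) ^ 2))) * gV e a)
          (2 * δ * (s₁ + s₂) * (s₁ * s₂) - c * (1 - δ * (s₁ * s₂) ^ 2 -
            δ * ((s₁ + s₂) ^ 2 + 2 * (s₁ * s₂))))
          (1 - δ * (s₁ * s₂) ^ 2 - δ * ((s₁ + s₂) ^ 2 + 2 * (s₁ * s₂)))) (X z f g c'' δ x))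
      rw [hcont]
      fun_prop
    · show |Lf _ _ _ (X z f g c'' 0 x)| < 1
      rw [inn_X, inn_lam]
      have b1 := inn_dot he hz hze hze'
      have b2 : |∑ a, fV e a * z a| ≤ 4 := by
        rw [inn_fV hk]
        rcases inn_pm he hz ⟨0, by omega⟩ with h | h <;>
          rcases inn_pm he hz ⟨1, by omega⟩ with h' | h' <;>
          rcases inn_pm he hz ⟨2, by omega⟩ with h'' | h'' <;> rw [h, h', h''] <;> norm_num [abs_le]
      have b3 : |∑ a, gV e a * z a| ≤ 4 * k := by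
        rw [inn_gV hk]
        rcases inn_pm he hz ⟨0, by omega⟩ with h | h <;>
          rcases inn_pm he hz ⟨1, by omega⟩ with h' | h' <;> rw [h, h', abs_le] <;>
          constructor <;> linarith
      obtain ⟨a1, ha1⟩ : ∃ a1, a1 = ∑ a, e a * z a := ⟨_, rfl⟩
      obtain ⟨a2, ha2⟩ : ∃ a2, a2 = ∑ a, fV e a * z a := ⟨_, rfl⟩
      obtain ⟨a3, ha3⟩ : ∃ a3, a3 = ∑ a, gV e a * z a := ⟨_, rfl⟩
      rw [← ha1] at b1 ⊢
      rw [← ha2] at b2 ⊢
      rw [← ha3] at b3 ⊢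
      have hη : eta k R = 1 / (100 * k * R) := rfl
      have hη1 : k * R * eta k R = 1 / 100 := by
        rw [hη]
        field_simp
      have hηp : 0 < eta k R := h1.trans_le h1'
      have hηR : R * eta k R ≤ 1 / 300 := by nlinarith
      have hηk : k * eta k R ≤ 1 / 100 := by nlinarith
      have hη3 : eta k R ≤ 1 / 300 := by nlinarith
      -- the value
      have hv : (1 - x ^ 2) * ((1 - 0 * (s₁ * s₂) ^ 2) / k * a1 + (s₁ + s₂) / 3 * a2 +
          (-(1 / (8 * (k : ℝ) ^ 2))) * a3) + 0 * (x ^ 3 * ∑ a, ((1 - 0 * (s₁ * s₂) ^ 2) / k * e a +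
            (s₁ + s₂) / 3 * fV e a + (-(1 / (8 * (k : ℝ) ^ 2))) * gV e a) * f a +
          x ^ 4 * ∑ a, ((1 - 0 * (s₁ * s₂) ^ 2) / k * e a +
            (s₁ + s₂) / 3 * fV e a + (-(1 / (8 * (k : ℝ) ^ 2))) * gV e a) * g a) +
          (2 * 0 * (s₁ + s₂) * (s₁ * s₂) - c * (1 - 0 * (s₁ * s₂) ^ 2 -
            0 * ((s₁ + s₂) ^ 2 + 2 * (s₁ * s₂)))) * x +
          (1 - 0 * (s₁ * s₂) ^ 2 - 0 * ((s₁ + s₂) ^ 2 + 2 * (s₁ * s₂))) *
            (c'' * x + x ^ 2) =
          (1 - x ^ 2) * (a1 / k + (s₁ + s₂) / 3 * a2 - a3 / (8 * (k : ℝ) ^ 2)) +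
            ((c'' - c) * x + x ^ 2) := by
        ring
      rw [hv]
      have c1 : |a1 / k| ≤ 1 - 2 / k := by
        rw [abs_div, abs_of_pos hkp, div_le_iff₀ hkp]
        have : (1 - 2 / (k : ℝ)) * k = k - 2 := by field_simp
        rw [this]
        exact b1
      have c2 : |(s₁ + s₂) / 3 * a2| ≤ 8 / 3 * eta k R := by
        rw [abs_mul, abs_of_pos (by linarith : 0 < (s₁ + s₂) / 3)]
        calc (s₁ + s₂) / 3 * |a2| ≤ (eta k R + eta k R) / 3 * 4 := by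
              apply mul_le_mul _ b2 (abs_nonneg _) (by linarith)
              linarith
          _ = 8 / 3 * eta k R := by ring
      have c3 : |a3 / (8 * (k : ℝ) ^ 2)| ≤ 1 / (2 * (k : ℝ)) := by
        rw [abs_div, abs_of_pos (by positivity : 0 < 8 * (k : ℝ) ^ 2), div_le_iff₀ (by positivity)]
        have : 1 / (2 * (k : ℝ)) * (8 * (k : ℝ) ^ 2) = 4 * k := by field_simp; ring
        rw [this]
        exact b3
      have c4 : |a1 / k + (s₁ + s₂) / 3 * a2 - a3 / (8 * (k : ℝ) ^ 2)| ≤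
          1 - 2 / k + 8 / 3 * eta k R + 1 / (2 * k) := by
        have := abs_sub (a1 / k + (s₁ + s₂) / 3 * a2) (a3 / (8 * (k : ℝ) ^ 2))
        have := abs_add_le (a1 / k) ((s₁ + s₂) / 3 * a2)
        linarith
      have hx1 : x ≤ 1 / 300 := hx'.trans hη3
      have c5 : |(1 - x ^ 2) * (a1 / k + (s₁ + s₂) / 3 * a2 - a3 / (8 * (k : ℝ) ^ 2))| ≤
          |a1 / k + (s₁ + s₂) / 3 * a2 - a3 / (8 * (k : ℝ) ^ 2)| := by
        rw [abs_mul]
        have : |1 - x ^ 2| ≤ 1 := by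
          rw [abs_le]
          constructor <;> nlinarith
        exact mul_le_of_le_one_left (abs_nonneg _) this
      have c6 : |(c'' - c) * x + x ^ 2| ≤ (2 * R + 1) * eta k R := by
        have g1 : |(c'' - c) * x + x ^ 2| ≤ |c'' - c| * x + x ^ 2 := by
          have := abs_add_le ((c'' - c) * x) (x ^ 2)
          rwa [abs_mul, abs_of_pos hx, abs_of_nonneg (by positivity : 0 ≤ x ^ 2)] at this
        have g2 : |c'' - c| ≤ 2 * R := by
          have := abs_sub c'' c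
          linarith
        have g3 : |c'' - c| * x ≤ 2 * R * eta k R := mul_le_mul g2 hx' hx.le (by linarith)
        have g4 : x ^ 2 ≤ eta k R := by nlinarith
        linarith
      have c7 := abs_add_le ((1 - x ^ 2) * (a1 / k + (s₁ + s₂) / 3 * a2 - a3 / (8 * (k : ℝ) ^ 2)))
        ((c'' - c) * x + x ^ 2)
      have c8 : (8 / 3 + (2 * R + 1)) * eta k R < 3 / (2 * k) := by
        rw [lt_div_iff₀ (by positivity)]
        nlinarith
      have c9 : (2 : ℝ) / k - 1 / (2 * k) = 3 / (2 * k) := by field_simp; norm_num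
      linarith

end Pool.CSLB
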