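import Pool.Agent.CSLB.Defs

/-!
MP_54ed1a_co, module (Lam): the coefficients on `J` and `I`.
-/

open Finset

noncomputable section

namespace Pool.CSLB

lemma lamSumLe {k : ℕ} (S : Finset (Fin k)) (w : Fin k → ℝ) (hw : ∀ a, w a = 1 ∨ w a = -1)
    (h : ∃ a ∈ S, w a = -1) : ∑ a ∈ S, w a ≤ (S.card : ℝ) - 2 := by
  obtain ⟨a, ha, hwa⟩ := h
  have h1 : ∀ b ∈ S, 0 ≤ 1 - w b := by
    intro b _
    rcases hw b with h | h <;> rw [h] <;> norm_num
  have h2 := Finset.single_le_sum h1 ha
  rw [Finset.sum_sub_distrib, hwa] at h2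
  simp only [Finset.sum_const, nsmul_eq_mul, mul_one] at h2
  linarith

lemma lamSumGe {k : ℕ} (S : Finset (Fin k)) (w : Fin k → ℝ) (hw : ∀ a, w a = 1 ∨ w a = -1)
    (h : ∃ a ∈ S, w a = 1) : -((S.card : ℝ) - 2) ≤ ∑ a ∈ S, w a := by
  obtain ⟨a, ha, hwa⟩ := h
  have h1 : ∀ b ∈ S, 0 ≤ 1 + w b := by
    intro b _
    rcases hw b with h | h <;> rw [h] <;> norm_num
  have h2 := Finset.single_le_sum h1 ha
  rw [Finset.sum_add_distrib, hwa] at h2
  simp only [Finset.sum_const, nsmul_eq_mul, mul_one] at h2
  linarith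

lemma lamSumAbs {k : ℕ} (S : Finset (Fin k)) (w : Fin k → ℝ) (hw : ∀ a, w a = 1 ∨ w a = -1) :
    |∑ a ∈ S, w a| ≤ (S.card : ℝ) := by
  refine (Finset.abs_sum_le_sum_abs _ _).trans ?_
  have : ∀ a ∈ S, |w a| ≤ 1 := by
    intro a _
    rcases hw a with h | h <;> rw [h] <;> norm_num
  refine (Finset.sum_le_sum this).trans ?_
  simp

/-- `(p - 2) / p ≤ 1 - 2 / k` for `1 ≤ p ≤ k` -/
lemma lamQuot {x p k : ℝ} (hp : 0 < p) (hpk : p ≤ k) (hx : |x| ≤ p - 2) :
    |x / p| ≤ 1 - 2 / k := by
  have hk : 0 < k := lt_of_lt_of_le hp hpk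
  rw [abs_div, abs_of_pos hp, div_le_iff₀ hp]
  have h1 : 2 / k * p ≤ 2 := by
    rw [div_mul_eq_mul_div, div_le_iff₀ hk]
    linarith
  calc |x| ≤ p - 2 := hx
    _ ≤ (1 - 2 / k) * p := by linarith

theorem lam : St_Lam := by
  classical
  intro k e e' he he' hJ hI Λ H hΛ
  set J : Finset (Fin k) := Finset.univ.filter fun a => e a = e' a with hJd
  set I : Finset (Fin k) := Finset.univ.filter fun a => ¬ e a = e' a with hId
  set p : ℝ := (J.card : ℝ) with hpd
  set q : ℝ := (I.card : ℝ) with hqd
  have hcard : p + q = k := by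
    have h := Finset.card_filter_add_card_filter_not (s := (Finset.univ : Finset (Fin k)))
      (fun a => e a = e' a)
    rw [Finset.card_univ, Fintype.card_fin] at h
    rw [hpd, hqd]
    exact_mod_cast h
  have hneg : ∀ a, ¬ e a = e' a → e' a = -e a := by
    intro a h
    rcases he a with h1 | h1 <;> rcases he' a with h2 | h2 <;> rw [h1, h2] at h ⊢ <;>
      first | exact absurd rfl h | norm_num
  have hp : 1 ≤ p := by
    obtain ⟨a, ha⟩ := hJ
    have : 0 < J.card := Finset.card_pos.mpr ⟨a, by simp [hJd, ha]⟩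
    rw [hpd]
    exact_mod_cast this
  have hq : 1 ≤ q := by
    obtain ⟨a, ha⟩ := hI
    have hne : ¬ e a = e' a := by
      intro h
      rcases he a with h1 | h1 <;> rw [h, ] at ha h1 <;> rw [h1] at ha <;> norm_num at ha
    have : 0 < I.card := Finset.card_pos.mpr ⟨a, by simp [hId, hne]⟩
    rw [hqd]
    exact_mod_cast this
  have hp0 : 0 < p := by linarith
  have hq0 : 0 < q := by linarith
  set lm : Fin k → ℝ := fun a => if e a = e' a then e a * Λ / p else e a * H / q with hlm
  have hsum : ∀ z : Fin k → ℝ, ∑ a, lm a * z a =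
      Λ * ((∑ a ∈ J, e a * z a) / p) + H * ((∑ a ∈ I, e a * z a) / q) := by
    intro z
    rw [← Finset.sum_filter_add_sum_filter_not (Finset.univ : Finset (Fin k))
      (fun a => e a = e' a)]
    congr 1
    · rw [Finset.sum_div, Finset.mul_sum]
      refine Finset.sum_congr rfl fun a ha => ?_
      have h : e a = e' a := (Finset.mem_filter.mp ha).2
      simp only [hlm, if_pos h]
      ring
    · rw [Finset.sum_div, Finset.mul_sum]
      refine Finset.sum_congr rfl fun a ha => ?_
      have h : ¬ e a = e' a := (Finset.mem_filter.mp ha).2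
      simp only [hlm, if_neg h]
      ring
  have hsq : ∀ a, e a * e a = 1 := by
    intro a
    rcases he a with h | h <;> rw [h] <;> norm_num
  have hJmem : ∀ a, a ∈ J ↔ e a = e' a := by
    intro a
    simp [hJd]
  have hImem : ∀ a, a ∈ I ↔ ¬ e a = e' a := by
    intro a
    simp [hId]
  have hJe : ∑ a ∈ J, e a * e a = p := by
    rw [Finset.sum_congr rfl fun a _ => hsq a]
    simp [hpd]
  have hIe : ∑ a ∈ I, e a * e a = q := by
    rw [Finset.sum_congr rfl fun a _ => hsq a]
    simp [hqd]
  refine ⟨lm, ?_, ?_, ?_⟩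
  · rw [hsum e, hJe, hIe, div_self hp0.ne', div_self hq0.ne']
    ring
  · have h1 : ∑ a ∈ J, e a * e' a = p := by
      rw [← hJe]
      refine Finset.sum_congr rfl fun a ha => ?_
      rw [← (hJmem a).mp ha]
    have h2 : ∑ a ∈ I, e a * e' a = -q := by
      rw [← hIe, ← Finset.sum_neg_distrib]
      refine Finset.sum_congr rfl fun a ha => ?_
      rw [hneg a ((hImem a).mp ha)]
      ring
    rw [hsum e', h1, h2, neg_div, div_self hp0.ne', div_self hq0.ne']
    ring
  · intro z hz hze hze1 hze' hze1'
    have hw : ∀ a, e a * z a = 1 ∨ e a * z a = -1 := by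
      intro a
      rcases he a with h1 | h1 <;> rcases hz a with h2 | h2 <;> rw [h1, h2] <;> norm_num
    have hpk : p ≤ k := by linarith
    have hqk : q ≤ k := by linarith
    have hwe : ∀ a, e a * z a = 1 → z a = e a := by
      intro a h
      have h1 : e a * (e a * z a) = e a * 1 := by rw [h]
      rw [← mul_assoc, hsq a, one_mul, mul_one] at h1
      exact h1
    have hwe' : ∀ a, e a * z a = -1 → z a = -e a := by
      intro a h
      have h1 : e a * (e a * z a) = e a * (-1) := by rw [h]
      rw [← mul_assoc, hsq a, one_mul] at h1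
      rw [h1]
      ring
    by_cases c1 : ∃ a ∈ J, e a * z a = -1
    · by_cases c2 : ∃ a ∈ J, e a * z a = 1
      · left
        have hS : |∑ a ∈ J, e a * z a| ≤ p - 2 :=
          abs_le.mpr ⟨lamSumGe J _ hw c2, lamSumLe J _ hw c1⟩
        have h1 := lamQuot hp0 hpk hS
        have h2 : |(∑ a ∈ I, e a * z a) / q| ≤ 1 := by
          rw [abs_div, abs_of_pos hq0, div_le_one hq0]
          exact lamSumAbs I _ hw
        rw [hsum z]
        refine (abs_add_le _ _).trans ?_
        rw [abs_mul, abs_mul, abs_of_nonneg hΛ]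
        have h3 : Λ * |(∑ a ∈ J, e a * z a) / p| ≤ Λ * (1 - 2 / k) :=
          mul_le_mul_of_nonneg_left h1 hΛ
        have h4 : |H| * |(∑ a ∈ I, e a * z a) / q| ≤ |H| * 1 :=
          mul_le_mul_of_nonneg_left h2 (abs_nonneg H)
        linarith
      · -- all are `-1` on `J`
        right
        have hall : ∀ a ∈ J, e a * z a = -1 := by
          intro a ha
          rcases hw a with h | h
          · exact absurd ⟨a, ha, h⟩ c2
          · exact h
        have hS : (∑ a ∈ J, e a * z a) / p = -1 := by
          rw [Finset.sum_congr rfl hall]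
          simp only [Finset.sum_const, nsmul_eq_mul, mul_neg, mul_one]
          rw [← hpd, neg_div, div_self hp0.ne']
        have d1 : ∃ a ∈ I, e a * z a = 1 := by
          by_contra hcon
          apply hze1
          funext a
          by_cases ha : e a = e' a
          · exact hwe' a (hall a ((hJmem a).mpr ha))
          · rcases hw a with h | h
            · exact absurd ⟨a, (hImem a).mpr ha, h⟩ hcon
            · exact hwe' a h
        have d2 : ∃ a ∈ I, e a * z a = -1 := by
          by_contra hcon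
          apply hze1'
          funext a
          by_cases ha : e a = e' a
          · rw [hwe' a (hall a ((hJmem a).mpr ha)), Pi.neg_apply, ha]
          · rcases hw a with h | h
            · rw [hwe a h, Pi.neg_apply, hneg a ha, neg_neg]
            · exact absurd ⟨a, (hImem a).mpr ha, h⟩ hcon
        have hSI : |∑ a ∈ I, e a * z a| ≤ q - 2 :=
          abs_le.mpr ⟨lamSumGe I _ hw d1, lamSumLe I _ hw d2⟩
        refine ⟨-((∑ a ∈ I, e a * z a) / q), ?_, Or.inr ?_⟩
        · rw [abs_neg]
          exact lamQuot hq0 hqk hSI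
        · rw [hsum z, hS]
          ring
    · -- all are `1` on `J`
      right
      have hall : ∀ a ∈ J, e a * z a = 1 := by
        intro a ha
        rcases hw a with h | h
        · exact h
        · exact absurd ⟨a, ha, h⟩ c1
      have hS : (∑ a ∈ J, e a * z a) / p = 1 := by
        rw [Finset.sum_congr rfl hall]
        simp only [Finset.sum_const, nsmul_eq_mul, mul_one]
        rw [← hpd, div_self hp0.ne']
      have d1 : ∃ a ∈ I, e a * z a = -1 := by
        by_contra hcon
        apply hze
        funext a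
        by_cases ha : e a = e' a
        · exact hwe a (hall a ((hJmem a).mpr ha))
        · rcases hw a with h | h
          · exact hwe a h
          · exact absurd ⟨a, (hImem a).mpr ha, h⟩ hcon
      have d2 : ∃ a ∈ I, e a * z a = 1 := by
        by_contra hcon
        apply hze'
        funext a
        by_cases ha : e a = e' a
        · rw [hwe a (hall a ((hJmem a).mpr ha)), ha]
        · rcases hw a with h | h
          · exact absurd ⟨a, (hImem a).mpr ha, h⟩ hcon
          · rw [hwe' a h, hneg a ha]
      have hSI : |∑ a ∈ I, e a * z a| ≤ q - 2 :=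
        abs_le.mpr ⟨lamSumGe I _ hw d2, lamSumLe I _ hw d1⟩
      refine ⟨(∑ a ∈ I, e a * z a) / q, lamQuot hq0 hqk hSI, Or.inl ?_⟩
      rw [hsum z, hS]
      ring

end Pool.CSLB
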