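import Pool.Agent.CSLB.Defs

/-!
# CSLB, module Par: parameters of different orders of magnitude (proved by helper27)
-/

set_option autoImplicit false

namespace Pool.CSLB

theorem par : St_Par := by
  intro r N cl η C hη hC
  have hq0 : (0 : ℝ) < (2 * C + 1)⁻¹ := by positivity
  have hq1 : (2 * C + 1)⁻¹ ≤ 1 := by
    rw [inv_le_one₀ (by positivity)]
    linarith
  have hfr : ∀ i : Fin N, (1 : ℝ) ≤ 1 + (i.val : ℝ) / N ∧ 1 + (i.val : ℝ) / N ≤ 2 := by
    intro i
    have hN : (0 : ℝ) < N := by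
      have := i.pos
      exact_mod_cast this
    have h1 : (0 : ℝ) ≤ (i.val : ℝ) / N := by positivity
    have h2 : (i.val : ℝ) / N ≤ 1 := by
      rw [div_le_one hN]
      exact_mod_cast i.isLt.le
    constructor <;> linarith
  refine ⟨fun i => (η / 2) * (2 * C + 1)⁻¹ ^ (r - (cl i).val) * (1 + (i.val : ℝ) / N), ?_, ?_, ?_⟩
  · intro i
    obtain ⟨h1, h2⟩ := hfr i
    have hp : 0 < (2 * C + 1)⁻¹ ^ (r - (cl i).val) := pow_pos hq0 _
    have hp1 : (2 * C + 1)⁻¹ ^ (r - (cl i).val) ≤ 1 := pow_le_one₀ hq0.le hq1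
    refine ⟨by positivity, ?_⟩
    calc (η / 2) * (2 * C + 1)⁻¹ ^ (r - (cl i).val) * (1 + (i.val : ℝ) / N)
        ≤ (η / 2) * 1 * 2 := by gcongr
      _ = η := by ring
  · intro i j hij hcl h
    have hN : (0 : ℝ) < N := by
      have := i.pos
      exact_mod_cast this
    simp only [hcl] at h
    have hp : 0 < (η / 2) * (2 * C + 1)⁻¹ ^ (r - (cl j).val) := by positivity
    have h3 := mul_left_cancel₀ hp.ne' h
    have h4 : (i.val : ℝ) / N = (j.val : ℝ) / N := by linarith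
    have h5 : (i.val : ℝ) = (j.val : ℝ) := by
      rw [div_left_inj' hN.ne'] at h4
      exact h4
    exact hij (Fin.ext (by exact_mod_cast h5))
  · intro i j hij
    obtain ⟨_, h2⟩ := hfr i
    obtain ⟨h3, _⟩ := hfr j
    have hlt : (cl i).val < (cl j).val := hij
    have hjr : (cl j).val < r := (cl j).isLt
    have hpow : (2 * C + 1)⁻¹ ^ (r - (cl i).val) ≤
        (2 * C + 1)⁻¹ ^ (r - (cl j).val) * (2 * C + 1)⁻¹ := by
      rw [← pow_succ]
      exact pow_le_pow_of_le_one hq0.le hq1 (by omega)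
    have hp : 0 < (2 * C + 1)⁻¹ ^ (r - (cl j).val) := pow_pos hq0 _
    have hC1 : C * (2 * C + 1)⁻¹ * 2 < 1 := by
      have : C * (2 * C + 1)⁻¹ * 2 = (2 * C) / (2 * C + 1) := by ring
      rw [this, div_lt_one (by positivity)]
      linarith
    calc C * ((η / 2) * (2 * C + 1)⁻¹ ^ (r - (cl i).val) * (1 + (i.val : ℝ) / N))
        ≤ C * ((η / 2) * ((2 * C + 1)⁻¹ ^ (r - (cl j).val) * (2 * C + 1)⁻¹) * 2) := by
          gcongr
      _ = ((η / 2) * (2 * C + 1)⁻¹ ^ (r - (cl j).val)) * (C * (2 * C + 1)⁻¹ * 2) := by ring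
      _ < ((η / 2) * (2 * C + 1)⁻¹ ^ (r - (cl j).val)) * 1 :=
          mul_lt_mul_of_pos_left hC1 (by positivity)
      _ ≤ (η / 2) * (2 * C + 1)⁻¹ ^ (r - (cl j).val) * (1 + (j.val : ℝ) / N) :=
          mul_le_mul_of_nonneg_left h3 (by positivity)

end Pool.CSLB
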