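import Pool.Agent.CSLB.Defs

/-!
CSLB, module Sgn: sign vectors of all antipodal classes of `{1,-1}^k`.
-/

noncomputable section

namespace Pool.CSLB

open Pool.CS4

/-- the sign vector with first coordinate `1` -/
def sgnVec {m : ℕ} (b : Fin m → Bool) : Fin (m + 1) → ℝ :=
  Fin.cons 1 fun a => if b a = true then 1 else -1

theorem sgnVec_isSign {m : ℕ} (b : Fin m → Bool) : IsSign (sgnVec b) := by
  intro a
  refine Fin.cases ?_ (fun a => ?_) a
  · left
    rfl
  · unfold sgnVec
    rw [Fin.cons_succ]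
    by_cases h : b a = true
    · left
      rw [if_pos h]
    · right
      rw [if_neg h]

theorem sgn : St_Sgn := by
  intro k hk
  obtain ⟨m, rfl⟩ : ∃ m, k = m + 1 := ⟨k - 1, by omega⟩
  have hcard : Fintype.card (Fin (2 ^ (m + 1 - 1))) = Fintype.card (Fin m → Bool) := by
    rw [Fintype.card_fin, Fintype.card_fun, Fintype.card_bool, Fintype.card_fin,
      Nat.add_sub_cancel]
  obtain ⟨E⟩ := Fintype.card_eq.1 hcard
  refine ⟨fun i => sgnVec (E i), fun i => sgnVec_isSign (E i), ?_⟩
  intro i j hij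
  refine ⟨⟨0, rfl⟩, ?_⟩
  have hne : E i ≠ E j := fun h => hij (E.injective h)
  obtain ⟨a, ha⟩ := Function.ne_iff.1 hne
  refine ⟨a.succ, ?_⟩
  show sgnVec (E i) a.succ = - sgnVec (E j) a.succ
  unfold sgnVec
  rw [Fin.cons_succ, Fin.cons_succ]
  cases hi : E i a <;> cases hj : E j a
  · exact absurd (hi.trans hj.symm) ha
  · simp
  · simp
  · exact absurd (hi.trans hj.symm) ha

end Pool.CSLB
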